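import Mathlib
import Pool.Agent.Lib.MP_ca1492_al.Fr.FreeP
import Pool.Agent.Lib.MP_ca1492_al.P.Asm

/-!
# MP_ca1492_al, module Fn/AsmD: definitions for lines with and without arrows
-/

set_option autoImplicit false

namespace Pool.Agent.Lib.MP_ca1492_al.Q

open Pool.Agent.Lib.MP_ca1492_al.P
open Topology Matrix TensorProduct CategoryTheory CategoryTheory.Abelian ValuativeRel CA1492

noncomputable section

variable {F : Type} [Field F] [ValuativeRel F] [TopologicalSpace F]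
  [IsNonarchimedeanLocalField F]

variable {Λ : Type} [DecidableEq Λ] {S : Finset (Λ × ℤ)} {c : Λ → GLRep F} {d : Λ → ℤ}

/-- The cuspidal representation of a letter. -/
def lett (c : Λ → GLRep F) (d : Λ → ℤ) (x : Λ × ℤ) : GLRep F :=
  (c x.1).tw ((x.2 : ℝ) - (d x.1 : ℝ) / 2)

/-- `V(xs)` as an `RMod`. -/
def vv (xs : List (datS S).J) : RMod (datS S) xs.length := ⟨VV xs.get xs.length⟩

/-- The 1 × 1 rectangle of a letter. -/
def box (x : (datS S).J) : PC.Rect Λ := ⟨(ltr x).1, (ltr x).2, 1, 1⟩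

/-- The letters of the discrete series. -/
def DsL (c : Λ → GLRep F) (d : Λ → ℤ) (ρ : GLRep F) (a : ℕ) (s : ℝ) (xs : List (datS S).J) : Prop :=
  List.Forall₂ (fun (i : ℕ) (x : (datS S).J) =>
    (ρ.tw ((i : ℝ) - ((a : ℝ) - 1) / 2 + s)).Isom (lett c d (ltr x))) (List.range a) xs

/-- The letters of Sp(δ, b), column by column. -/
def SpL (c : Λ → GLRep F) (d : Λ → ℤ) (ρ : GLRep F) (a b : ℕ) (xss : List (List (datS S).J)) :
    Prop :=
  List.Forall₂ (fun (j : ℕ) (xs : List (datS S).J) =>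
    DsL c d ρ a (((b : ℝ) - 1) / 2 - (j : ℝ)) xs) (List.range b) xss

/-- The rectangles of a triple (ρ, a, b): one rectangle, or 1 × 1 rectangles for a line without
arrows. -/
def RectsOf (S : Finset (Λ × ℤ)) (c : Λ → GLRep F) (d : Λ → ℤ) (x : GLRep F × ℕ × ℕ)
    (rs : List (PC.Rect Λ)) : Prop :=
  (∃ r, rs = [r] ∧ RectOf S c d x r) ∨
    (∃ xss : List (List (datS S).J), SpL c d x.1 x.2.1 x.2.2 xss ∧ NoArr (datS S) xss.flatten ∧
      (∀ y ∈ xss.flatten, 2 * (ltr y).2 = d (ltr y).1) ∧ rs = xss.flatten.map box)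


end

end Pool.Agent.Lib.MP_ca1492_al.Q
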