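import Mathlib
import Pool.Agent.Lib.MP_ca1492_al.D6.VInd
import Pool.Agent.Lib.MP_ca1492_al.Fn.AsmD
import Pool.Agent.Lib.MP_ca1492_al.Fr.Conv
import Pool.Agent.Lib.MP_ca1492_al.Fr.FreeS

/-!
# MP_ca1492_al, module Fn/AsmE: irreducible quotients on free lines
-/

set_option autoImplicit false

namespace Pool.Agent.Lib.MP_ca1492_al.Q

open Pool.Agent.Lib.MP_ca1492_al.P
open Topology Matrix TensorProduct CategoryTheory CategoryTheory.Abelian ValuativeRel CA1492

noncomputable section

variable {F : Type} [Field F] [ValuativeRel F] [TopologicalSpace F]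
  [IsNonarchimedeanLocalField F]

variable {Λ : Type} [DecidableEq Λ] {S : Finset (Λ × ℤ)} {c : Λ → GLRep F} {d : Λ → ℤ}

/-- The words of the 1 × 1 rectangle. -/
theorem AsmE_mem (x : (datS S).J) (w : Wd (datS S) 1) :
    w ∈ (rectH S (box x) 1).W ↔ w = [x].get := by
  have e : List.ofFn (fun i : Fin 1 => ((ltr x).1, (ltr x).2 - (i.val : ℤ))) =
      wl (S := S) (n := 1) [x].get := by
    unfold wl
    simp
  rw [mem_rectH]
  refine (rect_col (ltr x).1 (ltr x).2 1 (wl w)).trans ?_
  rw [e]
  exact ⟨fun h => wl_injective h, fun h => by rw [h]⟩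

/-- PROOF: `DR S (box x) 1` is one-dimensional, spanned by a vector of word [x] killed by yk and ps
(`rect_col` for a = 1, `hd_facts`); `v1_lift` gives a surjective map from `VV`, and both are
one-dimensional (`VV_basis`). -/
theorem dr_box (x : (datS S).J) : RIso (DR S (box x) 1) (vv [x]) := by
  have hw0 : ([x].get : Wd (datS S) 1) ∈ (rectH S (box x) 1).W := (AsmE_mem x _).2 rfl
  obtain ⟨h1, -, h3, -, -⟩ := hd_facts (rectH S (box x) 1) ⟨[x].get, hw0⟩
  have hself : hd (rectH S (box x) 1) ⟨[x].get, hw0⟩ ⟨[x].get, hw0⟩ = 1 := if_pos rfl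
  have hsing : ∀ u : (rectH S (box x) 1).W, u = ⟨[x].get, hw0⟩ := fun u =>
    Subtype.ext ((AsmE_mem x u.1).1 u.2)
  obtain ⟨f, hf⟩ := v1_lift (n := 1) ([x].get : Wd (datS S) 1) (HV (rectH S (box x) 1))
    (hd (rectH S (box x) 1) ⟨[x].get, hw0⟩) (by
      rw [h1, hself, one_smul]) (fun k => h3 k _)
  have hsurj : Function.Surjective f := by
    intro g
    have hg : g = g ⟨[x].get, hw0⟩ • hd (rectH S (box x) 1) ⟨[x].get, hw0⟩ := by
      funext u
      rw [hsing u]
      show _ = g ⟨[x].get, hw0⟩ * hd (rectH S (box x) 1) ⟨[x].get, hw0⟩ ⟨[x].get, hw0⟩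
      rw [hself, mul_one]
    refine ⟨g ⟨[x].get, hw0⟩ • v1 (n := 1) ([x].get : Wd (datS S) 1), ?_⟩
    have h4 : f (g ⟨[x].get, hw0⟩ • v1 (n := 1) ([x].get : Wd (datS S) 1)) =
        g ⟨[x].get, hw0⟩ • f (v1 (n := 1) ([x].get : Wd (datS S) 1)) := (clin f).map_smul _ _
    rw [h4, hf]
    exact hg.symm
  have hfin1 := VV_fin (n := 1) ([x].get : Wd (datS S) 1)
  have hd1 : Module.finrank ℂ (VV (n := 1) ([x].get : Wd (datS S) 1) 1) =
      Module.finrank ℂ (HV (rectH S (box x) 1)) := by
    rw [VIndA_finrank, Nat.factorial_one]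
    have : Unique (rectH S (box x) 1).W := ⟨⟨⟨[x].get, hw0⟩⟩, hsing⟩
    have : Fintype (rectH S (box x) 1).W := Fintype.ofFinite _
    have h5 : Module.finrank ℂ (HV (rectH S (box x) 1)) =
        Module.finrank ℂ ((rectH S (box x) 1).W → ℂ) := rfl
    rw [h5, Module.finrank_fintype_fun_eq_card, Fintype.card_unique]
  have hinj : Function.Injective f :=
    (LinearMap.injective_iff_surjective_of_finrank_eq_finrank hd1 (f := clin f)).mpr hsurj
  exact ⟨(LinearEquiv.ofBijective f ⟨hinj, hsurj⟩).symm⟩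

/-- PROOF: K.letter, K.iso, `dr_box`. -/
theorem Link.letter' (K : Link F S c d) (x : (datS S).J) :
    K.Rel 1 (lett c d (ltr x)) (vv [x]) :=
  K.iso (K.letter (ltr x).1 (ltr x).2 (Subtype.property (p := fun y => y ∈ S) x))
    (GLRep.Isom.refl _) (dr_box x)

/-- Irreducible quotients of products, if all letters are not linked.
PROOF. `Link.prod` for the modules `⟨xs.length, vv xs⟩`: n, M with K.Rel n (prodL Bs) M, IsProd.
`isProd_iff`, `prodK_KL`: M.k ≅ KL xss.flatten, so n = length (`KIso.m_eq`; subst) and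
`RIso M (vv xss.flatten)` (`riso_iff`). `free_simple`: M is simple. K.quot gives N with K.Rel n A N and an
injective N → M; N is simple (K.irred), so nonzero, so N → M is an isomorphism. K.iso. -/
theorem Link.free (K : Link F S c d) (A : GLRep F) (hA : A.Irred) (Bs : List (GLRep F))
    (xss : List (List (datS S).J))
    (h : List.Forall₂ (fun B xs => K.Rel xs.length B (vv xs)) Bs xss)
    (hq : (GLRep.prodL Bs).Quot A) (hf : NoArr (datS S) xss.flatten) :
    K.Rel xss.flatten.length A (vv xss.flatten) := by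
  have hF : List.Forall₂ (fun (B : GLRep F) (M : Σ m, RMod (datS S) m) => K.Rel M.1 B M.2) Bs
      (xss.map (fun xs => (⟨xs.length, vv xs⟩ : Σ m, RMod (datS S) m))) := by
    rw [List.forall₂_map_right_iff]
    exact h
  obtain ⟨n, M, hRel, hP⟩ := K.prod Bs _ hF
  have hK : KIso M.k (KL xss.flatten) := by
    have h1 := (isProd_iff _ _).1 hP
    rw [List.map_map] at h1
    exact h1.trans (prodK_KL xss)
  have hn : n = xss.flatten.length := hK.m_eq
  subst hn
  have hR : RIso M (vv xss.flatten) := (riso_iff _ _).2 hK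
  have hS : IsSimpleModule (R (datS S) xss.flatten.length) (vv xss.flatten).V := by
    refine free_simple xss.flatten.get ?_
    rw [List.ofFn_get]
    exact hf
  obtain ⟨N, hN, g, hg⟩ := K.quot hRel hq
  have hNs := K.irred hN hA
  obtain ⟨e⟩ := hR
  have hM : IsSimpleModule (R (datS S) xss.flatten.length) M.V := IsSimpleModule.congr e
  have hne : g ≠ 0 := by
    intro h0
    have : Nontrivial N.V := IsSimpleModule.nontrivial (R (datS S) xss.flatten.length) N.V
    obtain ⟨a, ha⟩ := exists_ne (0 : N.V)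
    apply ha
    apply hg
    rw [h0]
    rfl
  have hbij : Function.Bijective g := LinearMap.bijective_of_ne_zero hne
  exact K.iso hN (GLRep.Isom.refl _) ⟨(LinearEquiv.ofBijective g hbij).trans e⟩


end

end Pool.Agent.Lib.MP_ca1492_al.Q
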