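import Mathlib
import Pool.Agent.Lib.MP_ca1492_al.Fn.AsmE

/-!
# MP_ca1492_al, module Fn/AsmA: free lines
-/

set_option autoImplicit false

namespace Pool.Agent.Lib.MP_ca1492_al.Q

open Pool.Agent.Lib.MP_ca1492_al.P
open Topology Matrix TensorProduct CategoryTheory CategoryTheory.Abelian ValuativeRel CA1492

noncomputable section

variable {F : Type} [Field F] [ValuativeRel F] [TopologicalSpace F]
  [IsNonarchimedeanLocalField F]

variable {Λ : Type} [DecidableEq Λ] {S : Finset (Λ × ℤ)} {c : Λ → GLRep F} {d : Λ → ℤ}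

theorem AsmA_flatten {α : Type*} (xs : List α) : (xs.map (fun x => [x])).flatten = xs := by
  induction xs with
  | nil => rfl
  | cons x xs ih =>
    rw [List.map_cons, List.flatten_cons, ih]
    rfl

theorem AsmA_forall₂_imp {α β : Type*} {R R' : α → β → Prop} :
    ∀ (L : List α) (L' : List β), List.Forall₂ R L L' → (∀ x y, y ∈ L' → R x y → R' x y) →
      List.Forall₂ R' L L'
  | [], _, List.Forall₂.nil, _ => List.Forall₂.nil
  | _ :: L, _, List.Forall₂.cons h1 h2, h =>
    List.Forall₂.cons (h _ _ (List.mem_cons_self ..) h1)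
      (AsmA_forall₂_imp L _ h2 fun x y hy => h x y (List.mem_cons_of_mem _ hy))

/-- PROOF: `Link.free` with the lists [x]: δ.tw s is an irreducible quotient (`Irred.tw`, `Quot.tw`,
`Quot.isom`) of (prodL ..).tw s ≅ prodL of the ρ.tw (i - (a-1)/2 + s) (`prodL_tw`, `tw_tw`,
`prodL_congr`) ≅ prodL of the letters; `Link.letter'`, K.iso. (xs.map (fun x => [x])).flatten = xs. -/
theorem Link.ds_free (K : Link F S c d) {ρ δ : GLRep F} {a : ℕ} (hδ : GLRep.IsDS ρ a δ) (s : ℝ)
    (xs : List (datS S).J) (hx : DsL c d ρ a s xs) (hf : NoArr (datS S) xs) :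
    K.Rel xs.length (δ.tw s) (vv xs) := by
  have e : (xs.map (fun x => [x])).flatten = xs := AsmA_flatten xs
  have hiso : (GLRep.prodL (xs.map fun x => lett c d (ltr x))).Isom
      ((GLRep.prodL ((List.range a).map fun i : ℕ =>
        ρ.tw ((i : ℝ) - ((a : ℝ) - 1) / 2))).tw s) := by
    refine GLRep.Isom.symm ((GLRep.prodL_tw _ s).trans (GLRep.prodL_congr ?_))
    rw [List.map_map, List.forall₂_map_left_iff, List.forall₂_map_right_iff]
    refine List.Forall₂.imp ?_ hx
    intro i x hix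
    exact (GLRep.tw_tw ρ ((i : ℝ) - ((a : ℝ) - 1) / 2) s).trans hix
  have h := K.free (δ.tw s) (hδ.1.tw s) (xs.map fun x => lett c d (ltr x))
    (xs.map (fun x => [x])) (Asm_forall₂_map _ _ _ fun x _ => K.letter' x)
    (((Asm_ds hδ).tw s).isom hiso (GLRep.Isom.refl _)) (by rw [e]; exact hf)
  rw [e] at h
  exact h

/-- PROOF: `Link.free` with the lists of xss, `Link.ds_free` for each factor (a sublist of a list
without arrows has no arrows). -/
theorem Link.sp_free (K : Link F S c d) {ρ δ σ : GLRep F} {a b : ℕ} (hδ : GLRep.IsDS ρ a δ)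
    (hσ : GLRep.IsSp δ b σ) (xss : List (List (datS S).J)) (hx : SpL c d ρ a b xss)
    (hf : NoArr (datS S) xss.flatten) :
    K.Rel xss.flatten.length σ (vv xss.flatten) := by
  refine K.free σ hσ.1 ((List.range b).map fun j : ℕ => δ.tw (((b : ℝ) - 1) / 2 - (j : ℝ))) xss
    ?_ (Asm_sp hσ) hf
  rw [List.forall₂_map_left_iff]
  refine AsmA_forall₂_imp _ _ hx fun j xs hxs hj => ?_
  exact K.ds_free hδ _ xs hj fun x hx' y hy' =>
    hf x (List.mem_flatten.2 ⟨xs, hxs, hx'⟩) y (List.mem_flatten.2 ⟨xs, hxs, hy'⟩)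


end

end Pool.Agent.Lib.MP_ca1492_al.Q
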