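import Mathlib
import Pool.Agent.Lib.MP_ca1492_al.Fn.AsmE

/-!
# MP_ca1492_al, module Fn/AsmG: graded lifts of the modules V(w)
-/

set_option autoImplicit false

namespace Pool.Agent.Lib.MP_ca1492_al.Q

open Pool.Agent.Lib.MP_ca1492_al.P
open Topology Matrix TensorProduct CategoryTheory CategoryTheory.Abelian ValuativeRel CA1492

noncomputable section

variable {F : Type} [Field F] [ValuativeRel F] [TopologicalSpace F]
  [IsNonarchimedeanLocalField F]

variable {Λ : Type} [DecidableEq Λ] {S : Finset (Λ × ℤ)} {c : Λ → GLRep F} {d : Λ → ℤ}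

/-- The contents of a 1 × 1 rectangle. -/
theorem AsmG_cont (x : (datS S).J) : ∀ y ∈ (box x).cont, y ∈ S := by
  intro y hy
  obtain ⟨⟨i, j⟩, -, rfl⟩ := Multiset.mem_map.1 hy
  have hi : (i : ℕ) = 0 := Nat.lt_one_iff.1 i.2
  have hj : (j : ℕ) = 0 := Nat.lt_one_iff.1 j.2
  have h : ((box x).l, (box x).t + (j : ℕ) - (i : ℕ)) = ltr x := by
    rw [hi, hj]
    show ((ltr x).1, (ltr x).2 + ((0 : ℕ) : ℤ) - ((0 : ℕ) : ℤ)) = ltr x
    simp
  show ((box x).l, (box x).t + (j : ℕ) - (i : ℕ)) ∈ S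
  rw [h]
  exact x.2

/-- The module `V(xs)` is the product of the modules of the letters. -/
theorem AsmG_prod (xs : List (datS S).J) :
    IsProd (datS S) (xs.map (fun x => (⟨1, vv [x]⟩ : Σ m, RMod (datS S) m))) xs.length (vv xs) := by
  rw [isProd_iff]
  have h := prodK_KL (D := datS S) (xs.map fun x => [x])
  have e : (xs.map fun x => [x]).flatten = xs := by
    induction xs with
    | nil => rfl
    | cons x xs ih =>
      rw [List.map_cons, List.flatten_cons, ih (prodK_KL _)]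
      rfl
  rw [e, List.map_map] at h
  rw [List.map_map]
  exact h.symm

/-- PROOF: `vv xs` is the product of the `vv [x]` (`isProd_iff`, `prodK_KL`), `dr_box`, `GLift.prod`,
`GLift.rect`. For xs = []: `GLift.nil`. -/
theorem glift_vv (xs : List (datS S).J) (lam : ℂˣ) :
    GLift lam (vv xs) (PC.chL (xs.map box) : PC.QSh Λ ℂ lam)
      (PC.chL (xs.map box) : PC.QSh Λ ℂ lam⁻¹) := by
  have h := GLift.prod (lam := lam)
    (fs := xs.map fun x => ((box x).ch, (box x).ch)) ?_ (AsmG_prod xs)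
  · rw [List.map_map, List.map_map] at h
    unfold PC.chL
    rw [List.map_map, List.map_map]
    exact h
  · rw [List.forall₂_map_left_iff, List.forall₂_map_right_iff, List.forall₂_same]
    intro x _
    exact GLift.iso (GLift.rect (box x) rfl (AsmG_cont x)) (dr_box x).symm

/-- PROOF: first case `RectOf`; second case a = b = 1. -/
theorem RectsOf.facts {x : GLRep F × ℕ × ℕ} {rs : List (PC.Rect Λ)} (h : RectsOf S c d x rs) :
    ∀ r ∈ rs, (0 < r.a ∧ 0 < r.b ∧ 2 * r.t - r.a + r.b = d r.l) ∧ ∀ y ∈ r.cont, y ∈ S := by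
  rcases h with ⟨r, rfl, -, -, -, h1, h2, h3, h4⟩ | ⟨xss, -, -, h1, rfl⟩
  · intro r' hr'
    rw [List.mem_singleton] at hr'
    subst hr'
    exact ⟨⟨h1, h2, h3⟩, h4⟩
  · intro r hr
    obtain ⟨x, hx, rfl⟩ := List.mem_map.1 hr
    refine ⟨⟨Nat.one_pos, Nat.one_pos, ?_⟩, AsmG_cont x⟩
    have h2 := h1 x hx
    show 2 * (ltr x).2 - ((1 : ℕ) : ℤ) + ((1 : ℕ) : ℤ) = d (ltr x).1
    rw [h2]
    ring


end

end Pool.Agent.Lib.MP_ca1492_al.Q
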