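import Mathlib
import Pool.Agent.Lib.MP_ca1492_al.Fn.AsmA
import Pool.Agent.Lib.MP_ca1492_al.Fn.AsmG

/-!
# MP_ca1492_al, module Fn/AsmF: the factors
-/

set_option autoImplicit false

namespace Pool.Agent.Lib.MP_ca1492_al.Q

open Pool.Agent.Lib.MP_ca1492_al.P
open Topology Matrix TensorProduct CategoryTheory CategoryTheory.Abelian ValuativeRel CA1492

noncomputable section

variable {F : Type} [Field F] [ValuativeRel F] [TopologicalSpace F]
  [IsNonarchimedeanLocalField F]

variable {Λ : Type} [DecidableEq Λ] {S : Finset (Λ × ℤ)} {c : Λ → GLRep F} {d : Λ → ℤ}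

omit [DecidableEq Λ] in
theorem AsmF_card (r : PC.Rect Λ) : Multiset.card r.cont = r.a * r.b := by
  unfold PC.Rect.cont
  rw [Multiset.card_map]
  change (Finset.univ : Finset (Fin r.a × Fin r.b)).card = _
  rw [Finset.card_univ, Fintype.card_prod, Fintype.card_fin, Fintype.card_fin]

/-- PROOF: the two cases: `Link.sp`, `GLift.rect`; `Link.sp_free`, `glift_vv`. The number of contents of
a rectangle is a * b. (`PC.chL [r] = r.ch`.) -/
theorem Link.fac (K : Link F S c d) {x : GLRep F × ℕ × ℕ} {rs : List (PC.Rect Λ)}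
    (h : RectsOf S c d x rs) {δ σ : GLRep F} (hδ : GLRep.IsDS x.1 x.2.1 δ)
    (hσ : GLRep.IsSp δ x.2.2 σ) :
    ∃ (n : ℕ) (M : RMod (datS S) n), K.Rel n σ M ∧ n = Multiset.card ((rs.map PC.Rect.cont).sum) ∧
      ∀ lam : ℂˣ, GLift lam M (PC.chL rs : PC.QSh Λ ℂ lam) (PC.chL rs : PC.QSh Λ ℂ lam⁻¹) := by
  rcases h with ⟨r, rfl, h1, h2, h3, h4, h5, h6, h7⟩ | ⟨xss, hsp, hno, -, rfl⟩
  · rw [← h2] at hδ
    rw [← h3] at hσ
    refine ⟨r.a * r.b, DR S r (r.a * r.b), K.sp r h4 h5 h6 h1 hδ hσ h7, ?_, fun lam => ?_⟩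
    · rw [List.map_singleton, List.sum_singleton, AsmF_card]
    · have h8 := GLift.rect (lam := lam) r rfl h7
      unfold PC.chL
      rw [List.map_singleton, List.prod_singleton, List.map_singleton, List.prod_singleton]
      exact h8
  · refine ⟨xss.flatten.length, vv xss.flatten, K.sp_free hδ hσ xss hsp hno, ?_,
      fun lam => glift_vv _ lam⟩
    generalize xss.flatten = xs
    induction xs with
    | nil => rfl
    | cons x xs ih =>
      rw [List.length_cons, ih, List.map_cons, List.map_cons, List.sum_cons, Multiset.card_add,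
        AsmF_card, add_comm]
      rfl


end

end Pool.Agent.Lib.MP_ca1492_al.Q
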