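import Mathlib
import Pool.Agent.Lib.MP_ca1492_al.Fn.AsmF

/-!
# MP_ca1492_al, module Fn/AsmB: graded lifts of the modules of Arthur type representations
-/

set_option autoImplicit false

namespace Pool.Agent.Lib.MP_ca1492_al.Q

open Pool.Agent.Lib.MP_ca1492_al.P
open Topology Matrix TensorProduct CategoryTheory CategoryTheory.Abelian ValuativeRel CA1492

noncomputable section

variable {F : Type} [Field F] [ValuativeRel F] [TopologicalSpace F]
  [IsNonarchimedeanLocalField F]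

variable {Λ : Type} [DecidableEq Λ] {S : Finset (Λ × ℤ)} {c : Λ → GLRep F} {d : Λ → ℤ}

theorem AsmB_key (K : Link F S c d) {L : List (GLRep F × ℕ × ℕ)} {rss : List (List (PC.Rect Λ))}
    (h : List.Forall₂ (RectsOf S c d) L rss) {σ : List (GLRep F)}
    (hσ : List.Forall₂ (fun (x : GLRep F × ℕ × ℕ) (s : GLRep F) =>
      ∃ δ : GLRep F, GLRep.IsDS x.1 x.2.1 δ ∧ GLRep.IsSp δ x.2.2 s) L σ) :
    ∃ Ms : List (Σ m, RMod (datS S) m), List.Forall₂ (fun A M => K.Rel M.1 A M.2) σ Ms ∧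
      List.Forall₂ (fun (M : Σ m, RMod (datS S) m) (rs : List (PC.Rect Λ)) =>
        M.1 = Multiset.card ((rs.map PC.Rect.cont).sum) ∧
        ∀ lam : ℂˣ, GLift lam M.2 (PC.chL rs : PC.QSh Λ ℂ lam)
          (PC.chL rs : PC.QSh Λ ℂ lam⁻¹)) Ms rss := by
  induction h generalizing σ with
  | nil =>
    cases hσ
    exact ⟨[], List.Forall₂.nil, List.Forall₂.nil⟩
  | @cons x rs L rss hx h ih =>
    cases hσ with
    | @cons _ s _ σ hs hσ =>
      obtain ⟨Ms, h1, h2⟩ := ih hσ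
      obtain ⟨δ, hδ, hs⟩ := hs
      obtain ⟨n, M, h3, h4, h5⟩ := K.fac hx hδ hs
      exact ⟨⟨n, M⟩ :: Ms, List.Forall₂.cons h3 h1, List.Forall₂.cons ⟨h4, h5⟩ h2⟩

omit [DecidableEq Λ] in
theorem AsmB_chL {R : Type} [CommRing R] {q : Rˣ} [DecidableEq Λ]
    (rss : List (List (PC.Rect Λ))) :
    (rss.map fun rs => (PC.chL rs : PC.QSh Λ R q)).prod = PC.chL rss.flatten := by
  unfold PC.chL
  rw [List.map_flatten, List.prod_flatten, List.map_map]
  rfl

/-- Arthur type representations. PROOF: `Link.fac` for all factors, `Link.prod`, `GLift.prod`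
(`PC.chL rss.flatten` is the product of the `PC.chL rs`), `IsProd.length`, K.iso. -/
theorem Link.att2 (K : Link F S c d) (ψ : APar F) (rss : List (List (PC.Rect Λ)))
    (h : List.Forall₂ (RectsOf S c d) ψ.L rss) (π : GLRep F) (hπ : ψ.Att π) :
    ∃ (n : ℕ) (M : RMod (datS S) n), K.Rel n π M ∧
      n = Multiset.card ((rss.flatten.map PC.Rect.cont).sum) ∧
      ∀ lam : ℂˣ, GLift lam M (PC.chL rss.flatten : PC.QSh Λ ℂ lam)
        (PC.chL rss.flatten : PC.QSh Λ ℂ lam⁻¹) := by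
  obtain ⟨σ, hσ, hiso⟩ := hπ
  obtain ⟨Ms, h1, h2⟩ := AsmB_key K h hσ
  obtain ⟨n, M, hRel, hM⟩ := K.prod σ Ms h1
  refine ⟨n, M, K.iso hRel hiso (RIso.refl _), ?_, fun lam => ?_⟩
  · rw [← hM.length]
    clear hM hRel h1 h
    induction h2 with
    | nil => rfl
    | cons hx _ ih =>
      rw [List.map_cons, List.sum_cons, List.flatten_cons, List.map_append, List.sum_append,
        Multiset.card_add, hx.1]
      congr 1
  · have h3 : List.Forall₂ (fun (A : Σ m, RMod (datS S) m)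
      (f : PC.QSh Λ ℂ lam × PC.QSh Λ ℂ lam⁻¹) => GLift lam A.2 f.1 f.2) Ms
        (rss.map fun rs => ((PC.chL rs : PC.QSh Λ ℂ lam), (PC.chL rs : PC.QSh Λ ℂ lam⁻¹))) := by
      rw [List.forall₂_map_right_iff]
      exact h2.imp fun _ _ hx => hx.2 lam
    have h4 := GLift.prod h3 hM
    rw [List.map_map, List.map_map] at h4
    have h5 : (rss.map (Prod.fst ∘ fun rs => ((PC.chL rs : PC.QSh Λ ℂ lam),
        (PC.chL rs : PC.QSh Λ ℂ lam⁻¹)))).prod = PC.chL rss.flatten := AsmB_chL rss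
    have h6 : (rss.map (Prod.snd ∘ fun rs => ((PC.chL rs : PC.QSh Λ ℂ lam),
        (PC.chL rs : PC.QSh Λ ℂ lam⁻¹)))).prod = PC.chL rss.flatten := AsmB_chL rss
    rw [h5, h6] at h4
    exact h4


end

end Pool.Agent.Lib.MP_ca1492_al.Q
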