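import Mathlib
import Pool.Agent.Lib.MP_ca1492_al.Mod.Stage
import Pool.Agent.Lib.MP_ca1492_al.Mod.SubIso

namespace Pool.Agent.Lib.MP_ca1492_al.P
end Pool.Agent.Lib.MP_ca1492_al.P

/-!
# MP_ca1492_al, module Fn/AsmC: the theorem of Mod/Stage for graded lifts
-/

set_option autoImplicit false

namespace Pool.Agent.Lib.MP_ca1492_al.Q

open Pool.Agent.Lib.MP_ca1492_al.P
open Topology Matrix TensorProduct CategoryTheory CategoryTheory.Abelian ValuativeRel CA1492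

noncomputable section

variable {F : Type} [Field F] [ValuativeRel F] [TopologicalSpace F]
  [IsNonarchimedeanLocalField F]

variable {Λ : Type} [DecidableEq Λ] {S : Finset (Λ × ℤ)}

/-- The main theorem of Mod/Stage for graded lifts. PROOF: the proof of `stage1_aux` uses `IsAr` only
through `IsAr.lift` and `IsAr.card`; copy it. -/
theorem stage1_gl {n : ℕ} (L L' : List (PC.Rect Λ)) (δ : Λ → ℤ)
    (hL : ∀ r ∈ L, 0 < r.a ∧ 0 < r.b ∧ 2 * r.t - r.a + r.b = δ r.l)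
    (hL' : ∀ r ∈ L', 0 < r.a ∧ 0 < r.b ∧ 2 * r.t - r.a + r.b = δ r.l)
    (hc : (L.map PC.Rect.cont).sum = (L'.map PC.Rect.cont).sum)
    (hS : ∀ r ∈ L, ∀ x ∈ r.cont, x ∈ S) (hn : n = Multiset.card ((L.map PC.Rect.cont).sum))
    (M M' : RMod (datS S) n)
    (hM : ∀ lam : ℂˣ, GLift lam M (PC.chL L : PC.QSh Λ ℂ lam) (PC.chL L : PC.QSh Λ ℂ lam⁻¹))
    (hM' : ∀ lam : ℂˣ, GLift lam M' (PC.chL L' : PC.QSh Λ ℂ lam) (PC.chL L' : PC.QSh Λ ℂ lam⁻¹))
    (hfin : ∀ (lam : ℂˣ) (A B : FObj (datS S) n lam), PosNe lam →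
      ExtT.FinExt (ModuleCat.of (R (datS S) n) A.V) (ModuleCat.of (R (datS S) n) B.V) (n + 1)) :
    ∃ i, Nontrivial (Ext.{0} (ModuleCat.of (R (datS S) n) M.V)
      (ModuleCat.of (R (datS S) n) M'.V) i) := by
  obtain ⟨lam, c, a, hl, hc0, ha, h1, h2⟩ := comb_eval L L' δ hL hL' hc
  obtain ⟨A, hA1, hA2, -, -⟩ := hM lam
  obtain ⟨B, hB1, -, hB2, -⟩ := hM' lam
  have hw : ∀ w : a.support, ∃ w' : Wd (datS S) n, wl w' = w.1 := by
    intro w
    have h3 := ha w.1 w.2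
    refine exists_wl w.1 ?_ ?_
    · have h4 := congrArg Multiset.card h3
      rw [Multiset.coe_card, ← hn] at h4
      exact h4
    · intro x hx
      have h4 : x ∈ (L.map PC.Rect.cont).sum := by
        rw [← h3]
        exact hx
      obtain ⟨r, hr, hx'⟩ := (Stage_mem L).1 h4
      exact hS r hr x hx'
  choose W hW using hw
  have hrel : ∀ u, c * ch A u = ∑ j : a.support, a j.1 * ch (VF lam (W j)) u := by
    intro u
    let ev : PC.QSh Λ ℂ lam →+ ℂ := ⟨⟨fun f => f (wl u), rfl⟩, fun _ _ => rfl⟩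
    have h3 : ev (c • (PC.chL L : PC.QSh Λ ℂ lam)) =
        ev (∑ w ∈ a.support, a w • (PC.QSh.let_ w : PC.QSh Λ ℂ lam)) := congrArg ev h1
    rw [map_sum, ← hA2] at h3
    have h4 : ev (c • chQ A) = c * ch A u := by
      show c * chQ A (wl u) = c * ch A u
      rw [chQ_wl]
    rw [h4] at h3
    rw [h3, ← Finset.sum_coe_sort a.support
      (fun w => ev (a w • (PC.QSh.let_ w : PC.QSh Λ ℂ lam)))]
    have h5 : ∀ j : a.support, ev (a j.1 • (PC.QSh.let_ j.1 : PC.QSh Λ ℂ lam)) =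
        a j.1 * ch (VF lam (W j)) u := by
      intro j
      show a j.1 * (PC.QSh.let_ j.1 : PC.QSh Λ ℂ lam) (wl u) = _
      rw [← chQ_wl, chQ_VF, hW j]
    exact Finset.sum_congr rfl fun j _ => h5 j
  have hne : ∑ j : a.support, a j.1 *
      LinearMap.trace ℂ B.V (B.g.symm.toLinearMap ∘ₗ act B.V (ew (W j))) ≠ 0 := by
    have h3 : ∑ j : a.support, a j.1 *
        LinearMap.trace ℂ B.V (B.g.symm.toLinearMap ∘ₗ act B.V (ew (W j))) =
        a.sum (fun w x => x * (PC.chL L' : PC.QSh Λ ℂ lam⁻¹) w) := by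
      unfold Finsupp.sum
      rw [← Finset.sum_coe_sort a.support
        (fun w => a w * (PC.chL L' : PC.QSh Λ ℂ lam⁻¹) w)]
      refine Finset.sum_congr rfl fun j _ => ?_
      rw [← ch_inv, ← chQ_wl, hB2, hW j]
    rw [h3]
    exact h2
  obtain ⟨i, hi⟩ := abs_main hl A B (fun P => hfin lam P B hl) (ι := a.support) c W
    (fun j => a j.1) hrel hne
  exact ⟨i, ext_iso hA1.symm hB1.symm i hi⟩

/-- PROOF: as in `IsAr_wt` (`dim_word`, `PC.wt_list`). -/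
theorem glift_wt {L : List (PC.Rect Λ)} {n : ℕ} {M : RMod (datS S) n}
    (hM : GLift 1 M (PC.chL L : PC.QSh Λ ℂ 1) (PC.chL L : PC.QSh Λ ℂ 1⁻¹))
    (hS : ∀ r ∈ L, ∀ x ∈ r.cont, x ∈ S) (w : Wd (datS S) n) (v : M.V)
    (h : (ew w : R (datS S) n) • v ≠ 0) :
    (wl w : Multiset (Λ × ℤ)) = (L.map PC.Rect.cont).sum := by
  have h2 := (dim_word hM w).1
  have h3 : (PC.chL L : PC.QSh Λ ℂ 1) (wl w) ≠ 0 := fun h0 => h (h2 h0 v)
  exact PC.wt_list L (wl w) h3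


end

end Pool.Agent.Lib.MP_ca1492_al.Q
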