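import Mathlib
import Pool.Agent.Lib.MP_ca1492_al.Fn.AsmB
import Pool.Agent.Lib.MP_ca1492_al.Fn.AsmC

/-!
# MP_ca1492_al, module Fn/Asm2: non-vanishing of Ext iff the contents agree
-/

set_option autoImplicit false

namespace Pool.Agent.Lib.MP_ca1492_al.Q

open Pool.Agent.Lib.MP_ca1492_al.P
open Topology Matrix TensorProduct CategoryTheory CategoryTheory.Abelian ValuativeRel CA1492

noncomputable section

variable {F : Type} [Field F] [ValuativeRel F] [TopologicalSpace F]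
  [IsNonarchimedeanLocalField F]

variable {Λ : Type} [DecidableEq Λ] {S : Finset (Λ × ℤ)} {c : Λ → GLRep F} {d : Λ → ℤ}

theorem Asm2_facts {L : List (GLRep F × ℕ × ℕ)} {rss : List (List (PC.Rect Λ))}
    (h : List.Forall₂ (RectsOf S c d) L rss) :
    ∀ r ∈ rss.flatten, (0 < r.a ∧ 0 < r.b ∧ 2 * r.t - r.a + r.b = d r.l) ∧ ∀ y ∈ r.cont, y ∈ S := by
  induction h with
  | nil => intro r hr; simp at hr
  | cons h _ ih =>
    intro r hr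
    rw [List.flatten_cons, List.mem_append] at hr
    rcases hr with hr | hr
    · exact h.facts r hr
    · exact ih r hr

/-- Non-vanishing of Ext iff the contents agree. PROOF: as `Link.main`: `Link.att2` for both, `stage1_gl`
(for the lists in the order rss₂, rss₁), K.ext; K.ext_wt, `glift_wt`. -/
theorem Link.main2 (K : Link F S c d) (N : ℕ) (V₁ V₂ : Type) [AddCommGroup V₁] [Module ℂ V₁]
    [AddCommGroup V₂] [Module ℂ V₂] (π₁ : Representation ℂ (GL (Fin N) F) V₁)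
    (π₂ : Representation ℂ (GL (Fin N) F) V₂) (h₁ : IsSm π₁) (h₂ : IsSm π₂) (ψ₁ ψ₂ : APar F)
    (hπ₁ : ψ₁.Att ⟨Fin N, V₁, π₁⟩) (hπ₂ : ψ₂.Att ⟨Fin N, V₂, π₂⟩)
    (rs₁ rs₂ : List (List (PC.Rect Λ))) (hr₁ : List.Forall₂ (RectsOf S c d) ψ₁.L rs₁)
    (hr₂ : List.Forall₂ (RectsOf S c d) ψ₂.L rs₂)
    (hfin : ∀ (n : ℕ) (lam : ℂˣ) (A B : FObj (datS S) n lam), PosNe lam →
      ExtT.FinExt (ModuleCat.of (R (datS S) n) A.V) (ModuleCat.of (R (datS S) n) B.V) (n + 1)) :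
    letI := HasExt.standard (SmRep (GL (Fin N) F))
    ((∃ i, Nontrivial (Ext.{1} (ofSm π₁ h₁) (ofSm π₂ h₂) i)) ↔
      (rs₁.flatten.map PC.Rect.cont).sum = (rs₂.flatten.map PC.Rect.cont).sum) := by
  obtain ⟨n₁, M₁, hM₁, hn₁, hg₁⟩ := K.att2 ψ₁ rs₁ hr₁ _ hπ₁
  obtain ⟨n₂, M₂, hM₂, hn₂, hg₂⟩ := K.att2 ψ₂ rs₂ hr₂ _ hπ₂
  have hf₁ := Asm2_facts hr₁
  have hf₂ := Asm2_facts hr₂
  constructor
  · intro h
    obtain ⟨w₁, w₂, ⟨v₁, hv₁⟩, ⟨v₂, hv₂⟩, hw⟩ :=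
      K.ext_wt n₁ n₂ N V₁ V₂ π₁ π₂ h₁ h₂ M₁ M₂ hM₁ hM₂ h
    rw [← glift_wt (hg₁ 1) (fun r hr => (hf₁ r hr).2) w₁ v₁ hv₁,
      ← glift_wt (hg₂ 1) (fun r hr => (hf₂ r hr).2) w₂ v₂ hv₂, hw]
  · intro h
    have hn : n₂ = n₁ := by rw [hn₁, hn₂, h]
    subst hn
    exact K.ext n₂ N V₁ V₂ π₁ π₂ h₁ h₂ M₁ M₂ hM₁ hM₂
      (stage1_gl rs₂.flatten rs₁.flatten d (fun r hr => (hf₂ r hr).1) (fun r hr => (hf₁ r hr).1)
        h.symm (fun r hr => (hf₂ r hr).2) hn₂ M₂ M₁ hg₂ hg₁ (hfin _))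


end

end Pool.Agent.Lib.MP_ca1492_al.Q
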