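import Mathlib

/-!
# MP_ca1492_al, module Fn/Comb: counting the exponents of a rectangle
-/

set_option autoImplicit false

namespace Pool.Agent.Lib.MP_ca1492_al.Q

/-- The number of boxes of the `a × b` rectangle with exponent s. -/
noncomputable def Nab (a b : ℕ) (s : ℝ) : ℕ :=
  ((Finset.range a ×ˢ Finset.range b).filter fun p : ℕ × ℕ =>
    (p.1 : ℝ) - ((a : ℝ) - 1) / 2 + ((p.2 : ℝ) - ((b : ℝ) - 1) / 2) = s).card

/-- S_c is a summand of S_a ⊗ S_b. -/
def cg (a b c : ℕ) : Prop := ∃ i < min a b, c + 2 * i + 1 = a + b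

instance (a b c : ℕ) : Decidable (cg a b c) :=
  inferInstanceAs (Decidable (∃ i < min a b, c + 2 * i + 1 = a + b))

theorem Comb_iff (a b x y : ℕ) (u : ℤ) :
    (x : ℝ) - ((a : ℝ) - 1) / 2 + ((y : ℝ) - ((b : ℝ) - 1) / 2) =
      (u : ℝ) - ((a : ℝ) + b - 2) / 2 ↔ (x : ℤ) + y = u := by
  constructor
  · intro h
    have h1 : (((x : ℤ) + y : ℤ) : ℝ) = (u : ℝ) := by
      push_cast
      linarith
    exact_mod_cast h1
  · intro h
    have h1 : (((x : ℤ) + y : ℤ) : ℝ) = (u : ℝ) := by rw [h]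
    push_cast at h1
    linarith

/-- PROOF: the pairs with p.1 + p.2 = u: p.1 runs over max (0, u - b + 1) ≤ p.1 ≤ min (a - 1, u). -/
theorem Nab_int (a b : ℕ) (ha : 0 < a) (hb : 0 < b) (u : ℤ) :
    (Nab a b ((u : ℝ) - ((a : ℝ) + b - 2) / 2) : ℤ) =
      max 0 (min (min (a : ℤ) b) (min (u + 1) ((a : ℤ) + b - 1 - u))) := by
  have h1 : Nab a b ((u : ℝ) - ((a : ℝ) + b - 2) / 2) =
      (Finset.Icc (max 0 (u - b + 1)) (min ((a : ℤ) - 1) u)).card := by
    unfold Nab
    refine Finset.card_nbij' (fun p => (p.1 : ℤ)) (fun z => (z.toNat, (u - z).toNat)) ?_ ?_ ?_ ?_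
    · rintro ⟨x, y⟩ hp
      simp only [Finset.coe_filter, Finset.mem_product, Finset.mem_range, Set.mem_setOf_eq,
        Comb_iff] at hp
      simp only [Finset.coe_Icc, Set.mem_Icc]
      omega
    · intro z hz
      simp only [Finset.coe_Icc, Set.mem_Icc] at hz
      simp only [Finset.coe_filter, Finset.mem_product, Finset.mem_range, Set.mem_setOf_eq,
        Comb_iff]
      omega
    · rintro ⟨x, y⟩ hp
      simp only [Finset.coe_filter, Finset.mem_product, Finset.mem_range, Set.mem_setOf_eq,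
        Comb_iff] at hp
      simp only [Prod.mk.injEq]
      omega
    · intro z hz
      simp only [Finset.coe_Icc, Set.mem_Icc] at hz
      simp only
      omega
  rw [h1, Int.card_Icc]
  omega

/-- PROOF: an element of the filter gives u = p.1 + p.2. -/
theorem Nab_nonint (a b : ℕ) (s : ℝ) (h : ∀ u : ℤ, s ≠ (u : ℝ) - ((a : ℝ) + b - 2) / 2) :
    Nab a b s = 0 := by
  unfold Nab
  rw [Finset.card_eq_zero, Finset.filter_eq_empty_iff]
  rintro ⟨x, y⟩ _ hp
  apply h ((x : ℤ) + y)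
  rw [← hp]
  push_cast
  ring

/-- PROOF: `Nab_int`, `Nab_nonint`. (c - 1) / 2 = u - (a + b - 2) / 2 iff 2 u = c + a + b - 3; if c + a + b
is odd both sides... then u = (a + b + c - 3) / 2 and u + 1; with e = a + b: cg iff |a - b| + 1 ≤ c ≤ a + b - 1
(same parity as a + b - 1). If c + a + b is even, then both numbers are 0 and cg is false. -/
theorem cg_eq (a b c : ℕ) (ha : 0 < a) (hb : 0 < b) (hc : 0 < c) :
    (if cg a b c then (1 : ℤ) else 0) =
      (Nab a b (((c : ℝ) - 1) / 2) : ℤ) - (Nab a b (((c : ℝ) + 1) / 2) : ℤ) := by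
  by_cases hpar : ∃ u : ℤ, 2 * u = (c : ℤ) + a + b - 3
  · obtain ⟨u, hu⟩ := hpar
    have hu' : (2 : ℝ) * (u : ℝ) = (c : ℝ) + a + b - 3 := by exact_mod_cast hu
    have e1 : ((c : ℝ) - 1) / 2 = (u : ℝ) - ((a : ℝ) + b - 2) / 2 := by linarith
    have e2 : ((c : ℝ) + 1) / 2 = ((u + 1 : ℤ) : ℝ) - ((a : ℝ) + b - 2) / 2 := by
      push_cast
      linarith
    rw [e1, e2, Nab_int a b ha hb, Nab_int a b ha hb]
    by_cases h : cg a b c
    · rw [if_pos h]
      obtain ⟨i, hi, hic⟩ := h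
      omega
    · rw [if_neg h]
      have h' : ¬ ((a + b - 1 - c) / 2 < min a b ∧ c + 2 * ((a + b - 1 - c) / 2) + 1 = a + b) :=
        fun hh => h ⟨_, hh.1, hh.2⟩
      omega
  · have h1 : ¬ cg a b c := by
      rintro ⟨i, hi, hic⟩
      exact hpar ⟨(c : ℤ) + i - 1, by omega⟩
    rw [if_neg h1, Nab_nonint, Nab_nonint]
    · simp
    · intro u hu
      apply hpar
      refine ⟨u - 1, ?_⟩
      have h2 : (2 : ℝ) * ((u : ℝ) - 1) = (c : ℝ) + a + b - 3 := by linarith
      exact_mod_cast h2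
    · intro u hu
      apply hpar
      refine ⟨u, ?_⟩
      have h2 : (2 : ℝ) * (u : ℝ) = (c : ℝ) + a + b - 3 := by linarith
      exact_mod_cast h2

theorem cg_zero (a b : ℕ) : ¬ cg a b 0 := by
  rintro ⟨i, hi, h⟩
  have := lt_min_iff.1 hi
  omega

theorem cg_le {a b c : ℕ} (h : cg a b c) : c < a + b := by
  obtain ⟨i, hi, h⟩ := h
  omega

theorem Comb_sum (a b B : ℕ) (hB : a + b ≤ B) (F : ℕ → ℕ) :
    (∑ c ∈ Finset.range B, if cg a b c then F c else 0) =
      ∑ i ∈ Finset.range (min a b), F (a + b - 1 - 2 * i) := by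
  rw [← Finset.sum_filter]
  symm
  refine Finset.sum_nbij' (fun i => a + b - 1 - 2 * i) (fun c => (a + b - 1 - c) / 2) ?_ ?_ ?_ ?_ ?_
  · intro i hi
    rw [Finset.mem_range] at hi
    rw [Finset.mem_filter, Finset.mem_range]
    refine ⟨by omega, i, hi, by omega⟩
  · intro c hc
    rw [Finset.mem_filter, Finset.mem_range] at hc
    obtain ⟨_, i, hi, hic⟩ := hc
    rw [Finset.mem_range]
    omega
  · intro i hi
    rw [Finset.mem_range] at hi
    omega
  · intro c hc
    rw [Finset.mem_filter, Finset.mem_range] at hc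
    obtain ⟨_, i, hi, hic⟩ := hc
    omega
  · intro i _
    rfl

/-- PROOF: both sides are 0 unless s = u - (a + b - 2) / 2 for an integer u (for cg a b c:
c - 1 ≡ a + b - 2 mod 2, so the exponents of Nab c 1 are in the same class); then the right side is the
number of i < min a b with c = a + b - 1 - 2 i and |2 s| ≤ c - 1, i.e.
i ≤ u and i ≤ a + b - 2 - u; compare with `Nab_int`. -/
theorem Nab_sum (a b : ℕ) (ha : 0 < a) (hb : 0 < b) (s : ℝ) (B : ℕ) (hB : a + b ≤ B) :
    Nab a b s = ∑ c ∈ Finset.range B, if cg a b c then Nab c 1 s else 0 := by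
  rw [Comb_sum a b B hB (fun c => Nab c 1 s)]
  by_cases hs : ∃ u : ℤ, s = (u : ℝ) - ((a : ℝ) + b - 2) / 2
  · obtain ⟨u, rfl⟩ := hs
    have h1 : ∀ i ∈ Finset.range (min a b),
        Nab (a + b - 1 - 2 * i) 1 ((u : ℝ) - ((a : ℝ) + b - 2) / 2) =
          if (i : ℤ) ≤ u ∧ (i : ℤ) ≤ (a : ℤ) + b - 2 - u then 1 else 0 := by
      intro i hi
      rw [Finset.mem_range] at hi
      have hc : 0 < a + b - 1 - 2 * i := by omega
      have hc1 : ((a + b - 1 - 2 * i : ℕ) : ℤ) = (a : ℤ) + b - 1 - 2 * i := by omega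
      have hc2 : ((a + b - 1 - 2 * i : ℕ) : ℝ) = (a : ℝ) + b - 1 - 2 * i := by exact_mod_cast hc1
      have h2 := Nab_int (a + b - 1 - 2 * i) 1 hc one_pos (u - i)
      have e1 : (((u - i : ℤ) : ℝ) - (((a + b - 1 - 2 * i : ℕ) : ℝ) + ((1 : ℕ) : ℝ) - 2) / 2) =
          (u : ℝ) - ((a : ℝ) + b - 2) / 2 := by
        rw [hc2]
        push_cast
        ring
      rw [e1, hc1] at h2
      have h3 : (Nab (a + b - 1 - 2 * i) 1 ((u : ℝ) - ((a : ℝ) + b - 2) / 2) : ℤ) =
          ((if (i : ℤ) ≤ u ∧ (i : ℤ) ≤ (a : ℤ) + b - 2 - u then 1 else 0 : ℕ) : ℤ) := by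
        rw [h2]
        split_ifs with h4
        · push_cast
          omega
        · push_cast
          omega
      exact_mod_cast h3
    rw [Finset.sum_congr rfl h1, ← Finset.sum_filter, Finset.sum_const, smul_eq_mul, mul_one]
    have h5 : ((Finset.range (min a b)).filter
        (fun i : ℕ => (i : ℤ) ≤ u ∧ (i : ℤ) ≤ (a : ℤ) + b - 2 - u)).card =
        (Finset.range (max 0 (min (min (a : ℤ) b) (min (u + 1) ((a : ℤ) + b - 1 - u)))).toNat).card := by
      congr 1
      ext i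
      rw [Finset.mem_filter, Finset.mem_range, Finset.mem_range]
      omega
    rw [h5, Finset.card_range]
    have h6 := Nab_int a b ha hb u
    omega
  · push_neg at hs
    rw [Nab_nonint a b s hs]
    symm
    apply Finset.sum_eq_zero
    intro i hi
    rw [Finset.mem_range] at hi
    apply Nab_nonint
    intro u hu
    apply hs (u + i)
    have hc1 : ((a + b - 1 - 2 * i : ℕ) : ℤ) = (a : ℤ) + b - 1 - 2 * i := by omega
    have hc2 : ((a + b - 1 - 2 * i : ℕ) : ℝ) = (a : ℝ) + b - 1 - 2 * i := by exact_mod_cast hc1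
    rw [hu, hc2]
    push_cast
    ring

end Pool.Agent.Lib.MP_ca1492_al.Q
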