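import Mathlib
import Pool.Agent.Lib.MP_ca1492_al.Fn.AsmD

/-!
# MP_ca1492_al, module Fn/ExLink: the target of the p-adic side (statement)
-/

set_option autoImplicit false

namespace Pool.Agent.Lib.MP_ca1492_al.Q

open Pool.Agent.Lib.MP_ca1492_al.P
open Topology Matrix TensorProduct CategoryTheory CategoryTheory.Abelian ValuativeRel CA1492

noncomputable section

variable {F : Type} [Field F] [ValuativeRel F] [TopologicalSpace F]
  [IsNonarchimedeanLocalField F]

/-- The hypotheses on the letters: H1 cuspidal, H2 pairwise not isomorphic, H3 two letters x, y with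
y ≅ x ν are neighbours of a line if and only if one of the two products is reducible. -/
structure Letters {Λ : Type} (S : Finset (Λ × ℤ)) (c : Λ → GLRep F) (d : Λ → ℤ) : Prop where
  cusp : ∀ l, (c l).Cusp
  inj : ∀ x ∈ S, ∀ y ∈ S, (lett c d x).Isom (lett c d y) → x = y
  nb : ∀ x ∈ S, (x.1, x.2 + 1) ∈ S →
    ¬ (((lett c d x).mul (lett c d (x.1, x.2 + 1))).Irred ∧
      ((lett c d (x.1, x.2 + 1)).mul (lett c d x)).Irred)
  free : ∀ x ∈ S, ∀ y ∈ S, y ≠ (x.1, x.2 + 1) → (lett c d y).Isom ((lett c d x).tw 1) →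
    ((lett c d x).mul (lett c d y)).Irred ∧ ((lett c d y).mul (lett c d x)).Irred

end

end Pool.Agent.Lib.MP_ca1492_al.Q
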