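import Mathlib
import Pool.Agent.Lib.MP_ca1492_al.CombDefs
import Pool.Agent.Lib.MP_ca1492_al.P.Statement

namespace CA1492
end CA1492

/-!
# MP_ca1492_al, module Fn/LinesD: the lines of two parameters, definitions
-/

set_option autoImplicit false

namespace Pool.Agent.Lib.MP_ca1492_al.Q

open Pool.Agent.Lib.MP_ca1492_al.P
open Topology Matrix TensorProduct CategoryTheory CategoryTheory.Abelian ValuativeRel CA1492

noncomputable section

variable {F : Type} [Field F] [ValuativeRel F] [TopologicalSpace F]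
  [IsNonarchimedeanLocalField F]

/-!
The lines are `(i, e, j)`: `i` a class of cuspidal representations, `e ∈ {0, 1}`. If
`base i × (base i) ν` is reducible (`arw`) then `(i, e, 0)` is the line of the `(base i) ν^(t - e/2)`,
`t ∈ ℤ`. Otherwise every representation `(base i) ν^(j - e/2)` has its own line `(i, e, j)`.
-/

variable {ι : Type} (base : ι → GLRep F)

/-- The line has arrows. -/
def arw (i : ι) : Prop :=
  ¬ (((base i).mul ((base i).tw 1)).Irred ∧ (((base i).tw 1).mul (base i)).Irred)

open Classical in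
/-- The base representation of a line. -/
def lc (l : ι × ℤ × ℤ) : GLRep F :=
  if arw base l.1 then base l.1 else (base l.1).tw ((l.2.2 : ℝ) - (l.2.1 : ℝ) / 2)

open Classical in
/-- The shift of a line. -/
def ld (l : ι × ℤ × ℤ) : ℤ := if arw base l.1 then l.2.1 else 0

open Classical in
/-- The letters that occur. -/
def good (x : (ι × ℤ × ℤ) × ℤ) : Prop :=
  (x.1.2.1 = 0 ∨ x.1.2.1 = 1) ∧ if arw base x.1.1 then x.1.2.2 = 0 else x.2 = 0

open Classical in
/-- The exponent of a letter. -/
def ex (x : (ι × ℤ × ℤ) × ℤ) : ℝ :=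
  if arw base x.1.1 then (x.2 : ℝ) - (x.1.2.1 : ℝ) / 2
  else (x.1.2.2 : ℝ) - (x.1.2.1 : ℝ) / 2 + x.2

/-- The parity. -/
def par2 (a b : ℕ) : ℤ := ((a + b) % 2 : ℕ)

/-- The columns of the triple (base i, a, b) on a line without arrows: the letters of the column j. -/
def colF (i : ι) (a b j : ℕ) : List ((ι × ℤ × ℤ) × ℤ) :=
  (List.range a).map fun k : ℕ =>
    ((i, par2 a b, (k : ℤ) - (j : ℤ) + ((b : ℤ) - a + par2 a b) / 2), (0 : ℤ))

/-- all letters of the triple, on a line without arrows -/
def letF (i : ι) (a b : ℕ) : List ((ι × ℤ × ℤ) × ℤ) :=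
  ((List.range b).map fun j : ℕ => colF i a b j).flatten

open Classical in
/-- The rectangles of the triple (base i, a, b). -/
def rectsF (i : ι) (a b : ℕ) : List (PC.Rect (ι × ℤ × ℤ)) :=
  if arw base i then
    [⟨(i, par2 a b, 0), (par2 a b + (a : ℤ) - b) / 2, a, b⟩]
  else (letF i a b).map fun x => ⟨x.1, x.2, 1, 1⟩


end

end Pool.Agent.Lib.MP_ca1492_al.Q
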