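import Mathlib
import Pool.Agent.Lib.MP_ca1492_al.P.Statement

/-!
# MP_ca1492_al, module Fn/TwA: scalars and determinants
-/

set_option autoImplicit false

namespace Pool.Agent.Lib.MP_ca1492_al.Q

open Pool.Agent.Lib.MP_ca1492_al.P
open Topology Matrix TensorProduct ValuativeRel

noncomputable section

variable {F : Type} [Field F] [ValuativeRel F] [TopologicalSpace F]
  [IsNonarchimedeanLocalField F]

/-- PROOF: the residue field is finite and nonempty, so the base is positive (`zpow_pos`). -/
theorem absF_pos (x : F) (hx : x ≠ 0) : 0 < absF F x := by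
  haveI : Finite (IsLocalRing.ResidueField (Valuation.integer (valuation F))) :=
    inferInstanceAs (Finite 𝓀[F])
  have h0 : (0 : ℝ) < (Nat.card (IsLocalRing.ResidueField (Valuation.integer (valuation F))) : ℝ) := by
    exact_mod_cast Nat.card_pos
  unfold absF
  rw [if_neg hx]
  exact zpow_pos h0 _

/-- There is a scalar with absolute value different from 1.
PROOF: `valueGroupWithZeroIsoInt` is surjective and so is the valuation onto the value group
(`ValuativeRel.valuation_surjective` or a uniformizer): take z with log = 1; the residue field has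
q ≥ 2 elements, |z| = q. -/
theorem exists_absF_ne : ∃ z : Fˣ, absF F (z : F) ≠ 1 := by
  haveI : Finite (IsLocalRing.ResidueField (Valuation.integer (valuation F))) :=
    inferInstanceAs (Finite 𝓀[F])
  haveI : Nontrivial (IsLocalRing.ResidueField (Valuation.integer (valuation F))) := inferInstance
  have h1 : 1 < Nat.card (IsLocalRing.ResidueField (Valuation.integer (valuation F))) :=
    Finite.one_lt_card
  obtain ⟨v, hv⟩ : ∃ v, IsNonarchimedeanLocalField.valueGroupWithZeroIsoInt F v =
      WithZero.exp (1 : ℤ) :=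
    (IsNonarchimedeanLocalField.valueGroupWithZeroIsoInt F).surjective (WithZero.exp (1 : ℤ))
  obtain ⟨x, hx⟩ := ValuativeRel.valuation_surjective (K := F) v
  have hx0 : x ≠ 0 := by
    rintro rfl
    rw [map_zero] at hx
    rw [← hx, map_zero] at hv
    exact WithZero.exp_ne_zero hv.symm
  refine ⟨Units.mk0 x hx0, ?_⟩
  rw [Units.val_mk0]
  unfold absF
  rw [if_neg hx0, hx, hv, WithZero.log_exp, zpow_one]
  exact_mod_cast h1.ne'

/-- PROOF: `Matrix.reindexAlgEquiv` of a scalar matrix is the scalar matrix. -/
theorem glRe_scalar {κ κ' : Type} [Fintype κ] [DecidableEq κ] [Fintype κ'] [DecidableEq κ']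
    (e : κ ≃ κ') (z : Fˣ) :
    GLRep.glRe (F := F) e (Matrix.GeneralLinearGroup.scalar κ z) =
      Matrix.GeneralLinearGroup.scalar κ' z := by
  apply Units.ext
  ext i j
  simp only [GLRep.glRe, Matrix.GeneralLinearGroup.scalar]
  change Matrix.diagonal (fun _ : κ => (z : F)) (e.symm i) (e.symm j) =
    Matrix.diagonal (fun _ : κ' => (z : F)) i j
  rw [Matrix.diagonal_apply, Matrix.diagonal_apply]
  simp only [EmbeddingLike.apply_eq_iff_eq]

/-- PROOF: `Matrix.det_reindexAlgEquiv` (or `det_submatrix_equiv_self`). -/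
theorem glRe_det {κ κ' : Type} [Fintype κ] [DecidableEq κ] [Fintype κ'] [DecidableEq κ']
    (e : κ ≃ κ') (g : GL κ F) :
    ((GLRep.glRe e g : GL κ' F) : Matrix κ' κ' F).det = (g : Matrix κ κ F).det :=
  Matrix.det_reindexAlgEquiv F F e (g : Matrix κ κ F)


end

end Pool.Agent.Lib.MP_ca1492_al.Q
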