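import Mathlib
import Pool.Agent.Lib.MP_ca1492_al.Fn.TwA

/-!
# MP_ca1492_al, module Fn/TwB: twists of cuspidal representations with unitary central characters
-/

set_option autoImplicit false

namespace Pool.Agent.Lib.MP_ca1492_al.Q

open Pool.Agent.Lib.MP_ca1492_al.P
open Topology Matrix TensorProduct ValuativeRel

noncomputable section

variable {F : Type} [Field F] [ValuativeRel F] [TopologicalSpace F]
  [IsNonarchimedeanLocalField F]

/-- Twists of representations with unitary central characters.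
PROOF. Let e, f be the data of the isomorphism A.tw s → B.tw t, v ≠ 0 in A.V (A is irreducible),
f v ≠ 0. z from `exists_absF_ne`, n = card κ > 0 (κ nonempty), A.π z v = a • v, B.π z (f v) = b • f v with
‖a‖ = ‖b‖ = 1 (`UnitCentral`), det z = z ^ n, `glRe_scalar`. The intertwining relation for z and v:
|z ^ n| ^ s a f v = |z ^ n'| ^ t b f v, n' = n (e is a bijection). Norms: |z ^ n| ^ s = |z ^ n| ^ t,
|z ^ n| = |z| ^ n ≠ 1 positive, so s = t (`Real.rpow` injective in the exponent). Then f intertwines A and B: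
cancel the factor |det g| ^ s ≠ 0 (`glRe_det`). -/
theorem tw_cusp_isom {A B : GLRep F} (hA : A.Cusp) (hA' : A.UnitCentral) (hB : B.Cusp)
    (hB' : B.UnitCentral) {s t : ℝ} (h : (A.tw s).Isom (B.tw t)) : s = t ∧ A.Isom B := by
  obtain ⟨e, f, hf⟩ : ∃ (e : A.κ ≃ B.κ) (f : A.V ≃ₗ[ℂ] B.V), ∀ (g : GL A.κ F) (v : A.V),
      f ((((absF F (g : Matrix A.κ A.κ F).det) ^ s : ℝ) : ℂ) • A.π g v) =
        (((absF F ((GLRep.glRe e g : GL B.κ F) : Matrix B.κ B.κ F).det) ^ t : ℝ) : ℂ) •
          B.π (GLRep.glRe e g) (f v) := h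
  have hf' : ∀ (g : GL A.κ F) (v : A.V),
      (((absF F (g : Matrix A.κ A.κ F).det) ^ s : ℝ) : ℂ) • f (A.π g v) =
        (((absF F (g : Matrix A.κ A.κ F).det) ^ t : ℝ) : ℂ) • B.π (GLRep.glRe e g) (f v) := by
    intro g v
    rw [← map_smul, hf g v, glRe_det]
  obtain ⟨v, hv⟩ : ∃ v : A.V, v ≠ 0 := hA.2.1.1
  have hfv : f v ≠ 0 := fun h0 => hv (f.injective (h0.trans f.map_zero.symm))
  obtain ⟨z, hz⟩ := exists_absF_ne (F := F)
  obtain ⟨a, ha, hav⟩ := hA' z
  obtain ⟨b, hb, hbv⟩ := hB' z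
  have hne : Nonempty A.κ := hA.2.2.1
  have h1 := hf' (Matrix.GeneralLinearGroup.scalar A.κ z) v
  rw [glRe_scalar, hbv, hav, map_smul, smul_smul, smul_smul] at h1
  have h2 := smul_left_injective ℂ hfv h1
  have hdet : ((Matrix.GeneralLinearGroup.scalar A.κ z : GL A.κ F) : Matrix A.κ A.κ F).det =
      (z : F) ^ Fintype.card A.κ := by
    change (Matrix.diagonal fun _ : A.κ => (z : F)).det = _
    rw [Matrix.det_diagonal, Finset.prod_const, Finset.card_univ]
  have habs : ∀ n : ℕ, absF F ((z : F) ^ n) = absF F (z : F) ^ n := by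
    intro n
    induction n with
    | zero => rw [pow_zero, pow_zero, absF_one]
    | succ n ih => rw [pow_succ, pow_succ, absF_mul, ih]
  rw [hdet, habs] at h2
  have hr0 : 0 < absF F (z : F) ^ Fintype.card A.κ := pow_pos (absF_pos _ z.ne_zero) _
  have hr1 : absF F (z : F) ^ Fintype.card A.κ ≠ 1 := by
    intro h1
    exact hz ((pow_eq_one_iff_of_nonneg (absF_nonneg (F := F) _) Fintype.card_ne_zero).1 h1)
  have h3 : (absF F (z : F) ^ Fintype.card A.κ) ^ s = (absF F (z : F) ^ Fintype.card A.κ) ^ t := by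
    have := congrArg norm h2
    simp only [norm_mul, ha, hb, mul_one, Complex.norm_real, Real.norm_eq_abs] at this
    rwa [abs_of_pos (Real.rpow_pos_of_pos hr0 s), abs_of_pos (Real.rpow_pos_of_pos hr0 t)] at this
  have hst : s = t := (Real.rpow_right_inj hr0 hr1).1 h3
  refine ⟨hst, e, f, fun g v => ?_⟩
  have h4 := hf' g v
  rw [hst] at h4
  have h5 : (((absF F (g : Matrix A.κ A.κ F).det) ^ t : ℝ) : ℂ) ≠ 0 := by
    have : 0 < (absF F (g : Matrix A.κ A.κ F).det) ^ t :=
      Real.rpow_pos_of_pos (absF_pos _ (Matrix.GeneralLinearGroup.det g).ne_zero) t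
    exact_mod_cast this.ne'
  exact smul_right_injective _ h5 h4


end

end Pool.Agent.Lib.MP_ca1492_al.Q
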