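import Mathlib
import Pool.Agent.Lib.MP_ca1492_al.P.GLRepB

/-!
# MP_ca1492_al, module Fn/TwC: twists of cuspidal representations are cuspidal
-/

set_option autoImplicit false

namespace Pool.Agent.Lib.MP_ca1492_al.Q

open Pool.Agent.Lib.MP_ca1492_al.P
open Topology Matrix TensorProduct ValuativeRel

noncomputable section

variable {F : Type} [Field F] [ValuativeRel F] [TopologicalSpace F]
  [IsNonarchimedeanLocalField F]

/-- a matrix of the unipotent radical of the stabilizer of the coordinate subspace of `S` has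
determinant one -/
theorem TwC_det {κ : Type} [Fintype κ] [DecidableEq κ] (S : Set κ) (n : GL κ F)
    (hn : ∀ i j, ¬ (i ∈ S ∧ j ∉ S) → (n : Matrix κ κ F) i j = (1 : Matrix κ κ F) i j) :
    (n : Matrix κ κ F).det = 1 := by
  classical
  obtain ⟨b, hb⟩ : ∃ b : κ → ℕ, b = fun i => if i ∈ S then 0 else 1 := ⟨_, rfl⟩
  have hb0 : ∀ i, i ∈ S → b i = 0 := by
    intro i hi
    rw [hb]
    simp [hi]
  have hb1 : ∀ i, i ∉ S → b i = 1 := by
    intro i hi
    rw [hb]
    simp [hi]
  have h1 : Matrix.BlockTriangular (n : Matrix κ κ F) b := by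
    intro i j hij
    rw [hn i j, Matrix.one_apply_ne]
    · rintro rfl
      exact lt_irrefl _ hij
    · rintro ⟨hi, _⟩
      rw [hb0 i hi] at hij
      exact absurd hij (Nat.not_lt_zero _)
  rw [h1.det]
  refine Finset.prod_eq_one fun a _ => ?_
  have h2 : (n : Matrix κ κ F).toSquareBlock b a = 1 := by
    ext i j
    have hbi : b i.1 = a := i.2
    have hbj : b j.1 = a := j.2
    have h3 : (n : Matrix κ κ F) i.1 j.1 = (1 : Matrix κ κ F) i.1 j.1 := by
      refine hn _ _ ?_
      rintro ⟨hi, hj⟩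
      rw [hb0 _ hi] at hbi
      rw [hb1 _ hj] at hbj
      omega
    change (n : Matrix κ κ F) i.1 j.1 = _
    rw [h3, Matrix.one_apply, Matrix.one_apply]
    simp only [Subtype.ext_iff]
  rw [h2, Matrix.det_one]

theorem TwC_smooth {A : GLRep F} (hA : A.Smooth) (s : ℝ) : (A.tw s).Smooth := by
  have key : ∀ v : A.V, IsOpen {g : GL A.κ F | GLRep.GLRepB_c s g • A.π g v = v} := by
    intro v
    have hopen : IsOpen ((GLRep.GLRepB_W F A.κ : Set (GL A.κ F)) ∩ {g | A.π g v = v}) :=
      (GLRep.GLRepB_W_open A.κ).inter (hA v)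
    rw [isOpen_iff_forall_mem_open]
    intro g₀ hg₀
    have hg₀' : GLRep.GLRepB_c s g₀ • A.π g₀ v = v := hg₀
    refine ⟨(fun g => g₀⁻¹ * g) ⁻¹' ((GLRep.GLRepB_W F A.κ : Set (GL A.κ F)) ∩
      {g | A.π g v = v}), ?_, ?_, ?_⟩
    · intro g hg
      obtain ⟨h1, h2⟩ := hg
      have h2' : A.π (g₀⁻¹ * g) v = v := h2
      have h4 : GLRep.GLRepB_c s (g₀ * (g₀⁻¹ * g)) • A.π (g₀ * (g₀⁻¹ * g)) v = v := by
        rw [GLRep.GLRepB_c_mul, GLRep.GLRepB_W_c s h1, mul_one, map_mul, Module.End.mul_apply, h2',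
          hg₀']
      rw [mul_inv_cancel_left] at h4
      exact h4
    · exact hopen.preimage (continuous_const.mul continuous_id)
    · refine ⟨?_, ?_⟩
      · change g₀⁻¹ * g₀ ∈ GLRep.GLRepB_W F A.κ
        rw [inv_mul_cancel]
        exact (GLRep.GLRepB_W F A.κ).one_mem
      · change A.π (g₀⁻¹ * g₀) v = v
        rw [inv_mul_cancel, map_one]
        rfl
  exact key

/-- PROOF: smooth: |det g| ^ s = 1 on an open subgroup (see `mul_tw` in P/GLRepB; absF is locally
constant on F \ {0}); irreducible: `Irred.tw`; the matrices of the radicals are (block, after a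
permutation of the indices) unitriangular, so det = 1 and A.tw s has the same vectors
A(n) v - v (det = 1: S rows and columns first, `Matrix.det_fromBlocks_zero₂₁` after reindexing by
`Equiv.Set.sumCompl`, or: n - 1 maps everything to the span of S and kills it, (n - 1)^2 = 0, so
n is unipotent: det (1 + N) = 1 for N^2 = 0 ...). -/
theorem Cusp.tw {A : GLRep F} (hA : A.Cusp) (s : ℝ) : (A.tw s).Cusp := by
  obtain ⟨h1, h2, h3, h4⟩ := hA
  refine ⟨TwC_smooth h1 s, h2.tw s, h3, fun S hS hS' => ?_⟩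
  have h5 := h4 S hS hS'
  refine eq_top_iff.2 (le_trans (le_of_eq h5.symm) (Submodule.span_mono ?_))
  rintro x ⟨n, v, hn, hx⟩
  have h9 : (n : Matrix A.κ A.κ F).det = 1 := TwC_det (κ := A.κ) S n hn
  have h7 : GLRep.GLRepB_c s n = 1 := by
    unfold GLRep.GLRepB_c
    rw [h9, absF_one, Real.one_rpow, Complex.ofReal_one]
  have h8 : x = GLRep.GLRepB_c s n • A.π n v - v := by
    rw [h7, one_smul]
    exact hx
  exact ⟨n, v, hn, h8⟩


end

end Pool.Agent.Lib.MP_ca1492_al.Q
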