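import Mathlib
import Pool.Agent.Lib.MP_ca1492_al.Fn.AsmD
import Pool.Agent.Lib.MP_ca1492_al.Fn.LinesD
import Pool.Agent.Lib.MP_ca1492_al.Fn.TwB
import Pool.Agent.Lib.MP_ca1492_al.Fn.TwC

/-!
# MP_ca1492_al, module Fn/LinesA: representatives, exponents of letters
-/

set_option autoImplicit false

namespace Pool.Agent.Lib.MP_ca1492_al.Q

open Pool.Agent.Lib.MP_ca1492_al.P
open Topology Matrix TensorProduct CategoryTheory CategoryTheory.Abelian ValuativeRel CA1492

noncomputable section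

variable {F : Type} [Field F] [ValuativeRel F] [TopologicalSpace F]
  [IsNonarchimedeanLocalField F]

/-- Representatives of the isomorphism classes.
PROOF. On `Fin L.length` the relation `(L.get j).1.Isom (L.get k).1` is an equivalence (`Isom.refl`,
`.symm`, `.trans`); ι = the quotient, base q = (L.get q.out).1. -/
theorem exists_base (L : List (GLRep F × ℕ × ℕ)) (hL : ∀ x ∈ L, x.1.Cusp ∧ x.1.UnitCentral) :
    ∃ (ι : Type) (base : ι → GLRep F), (∀ i, (base i).Cusp ∧ (base i).UnitCentral) ∧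
      (∀ i j, (base i).Isom (base j) → i = j) ∧ ∀ x ∈ L, ∃ i, x.1.Isom (base i) := by
  let st : Setoid (Fin L.length) :=
    ⟨fun j k => (L.get j).1.Isom (L.get k).1, ⟨fun j => GLRep.Isom.refl _, fun h => h.symm,
      fun h h' => h.trans h'⟩⟩
  refine ⟨Quotient st, fun q => (L.get q.out).1, fun q => hL _ (List.get_mem _ _),
    fun i j h => ?_, fun x hx => ?_⟩
  · have h1 : Quotient.mk st i.out = Quotient.mk st j.out := Quotient.sound h
    rwa [Quotient.out_eq, Quotient.out_eq] at h1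
  · obtain ⟨k, rfl⟩ := List.get_of_mem hx
    refine ⟨Quotient.mk st k, ?_⟩
    have h1 : st.r (Quotient.mk st k).out k := Quotient.mk_out k
    exact GLRep.Isom.symm h1

variable {ι : Type} (base : ι → GLRep F)

/-- PROOF: both cases of `arw`; `tw_tw`, `Isom.refl`. -/
theorem lett_ex (x : (ι × ℤ × ℤ) × ℤ) :
    (lett (lc base) (ld base) x).Isom ((base x.1.1).tw (ex base x)) := by
  unfold lett lc ld ex
  by_cases h : arw base x.1.1
  · rw [if_pos h, if_pos h, if_pos h]
    exact GLRep.Isom.refl _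
  · rw [if_neg h, if_neg h, if_neg h]
    have h1 := GLRep.tw_tw (base x.1.1) ((x.1.2.2 : ℝ) - (x.1.2.1 : ℝ) / 2)
      ((x.2 : ℝ) - ((0 : ℤ) : ℝ) / 2)
    have h2 : ((x.1.2.2 : ℝ) - (x.1.2.1 : ℝ) / 2) + ((x.2 : ℝ) - ((0 : ℤ) : ℝ) / 2) =
        (x.1.2.2 : ℝ) - (x.1.2.1 : ℝ) / 2 + x.2 := by
      rw [Int.cast_zero]
      ring
    rwa [h2] at h1

/-- PROOF: e = e' because the difference (e - e') / 2 is an integer; then the same position. -/
theorem good_ex {x y : (ι × ℤ × ℤ) × ℤ} (hx : good base x) (hy : good base y)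
    (h : x.1.1 = y.1.1) (h' : ex base x = ex base y) : x = y := by
  obtain ⟨⟨i, e, j⟩, t⟩ := x
  obtain ⟨⟨i', e', j'⟩, t'⟩ := y
  obtain ⟨hx1, hx2⟩ := hx
  obtain ⟨hy1, hy2⟩ := hy
  dsimp only at h hx1 hx2 hy1 hy2
  subst h
  unfold ex at h'
  dsimp only at h'
  by_cases ha : arw base i
  · rw [if_pos ha] at hx2 hy2
    rw [if_pos ha, if_pos ha] at h'
    have h2 : 2 * t - e = 2 * t' - e' := by
      have : (2 * (t : ℝ) - e) = 2 * (t' : ℝ) - e' := by linarith
      exact_mod_cast this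
    subst hx2 hy2
    have h3 : e = e' := by omega
    have h4 : t = t' := by omega
    rw [h3, h4]
  · rw [if_neg ha] at hx2 hy2
    rw [if_neg ha, if_neg ha] at h'
    subst hx2 hy2
    have h2 : 2 * j - e = 2 * j' - e' := by
      have : (2 * (j : ℝ) - e) = 2 * (j' : ℝ) - e' := by
        rw [Int.cast_zero] at h'
        linarith
      exact_mod_cast this
    have h3 : e = e' := by omega
    have h4 : j = j' := by omega
    rw [h3, h4]

/-- (H1) PROOF: `Cusp.tw`. -/
theorem lc_cusp (hb : ∀ i, (base i).Cusp ∧ (base i).UnitCentral) (l : ι × ℤ × ℤ) :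
    (lc base l).Cusp := by
  unfold lc
  split_ifs
  · exact (hb _).1
  · exact Cusp.tw (hb _).1 _

/-- (H2) PROOF: `lett_ex`, `tw_cusp_isom`, `good_ex`. -/
theorem lett_inj (hb : ∀ i, (base i).Cusp ∧ (base i).UnitCentral)
    (hi : ∀ i j, (base i).Isom (base j) → i = j) {x y : (ι × ℤ × ℤ) × ℤ} (hx : good base x)
    (hy : good base y) (h : (lett (lc base) (ld base) x).Isom (lett (lc base) (ld base) y)) :
    x = y := by
  have h1 := ((lett_ex base x).symm.trans h).trans (lett_ex base y)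
  obtain ⟨h2, h3⟩ := tw_cusp_isom (hb _).1 (hb _).2 (hb _).1 (hb _).2 h1
  exact good_ex base hx hy (hi _ _ h3) h2


end

end Pool.Agent.Lib.MP_ca1492_al.Q
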