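import Mathlib
import Pool.Agent.Lib.MP_ca1492_al.Fn.LinesA

/-!
# MP_ca1492_al, module Fn/LinesC: the rectangles of a triple
-/

set_option autoImplicit false

namespace Pool.Agent.Lib.MP_ca1492_al.Q

open Pool.Agent.Lib.MP_ca1492_al.P
open Topology Matrix TensorProduct CategoryTheory CategoryTheory.Abelian ValuativeRel CA1492

noncomputable section

variable {F : Type} [Field F] [ValuativeRel F] [TopologicalSpace F]
  [IsNonarchimedeanLocalField F]

variable {ι : Type} (base : ι → GLRep F)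

/-- PROOF: par2 ∈ {0, 1}; `PC.Rect.cont`. -/
theorem rectsF_good (i : ι) (a b : ℕ) :
    ∀ r ∈ rectsF base i a b, ∀ x ∈ r.cont, good base x := by
  have hp : par2 a b = 0 ∨ par2 a b = 1 := by
    unfold par2
    omega
  intro r hr x hx
  unfold rectsF at hr
  by_cases ha : arw base i
  · rw [if_pos ha, List.mem_singleton] at hr
    subst hr
    unfold PC.Rect.cont at hx
    obtain ⟨p, -, rfl⟩ := Multiset.mem_map.1 hx
    refine ⟨hp, ?_⟩
    rw [if_pos ha]
  · rw [if_neg ha] at hr
    obtain ⟨y, hy, rfl⟩ := List.mem_map.1 hr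
    unfold letF at hy
    obtain ⟨ys, hys, hy⟩ := List.mem_flatten.1 hy
    obtain ⟨j, -, rfl⟩ := List.mem_map.1 hys
    unfold colF at hy
    obtain ⟨k, -, rfl⟩ := List.mem_map.1 hy
    unfold PC.Rect.cont at hx
    obtain ⟨p, -, rfl⟩ := Multiset.mem_map.1 hx
    have h1 : (p.1 : ℕ) = 0 := by
      have := p.1.2
      dsimp only at this
      omega
    have h2 : (p.2 : ℕ) = 0 := by
      have := p.2.2
      dsimp only at this
      omega
    refine ⟨hp, ?_⟩
    dsimp only
    rw [if_neg ha, h1, h2]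
    simp

theorem LinesC_lift {Λ : Type} [DecidableEq Λ] {S : Finset (Λ × ℤ)} (l : List (Λ × ℤ))
    (h : ∀ y ∈ l, y ∈ S) : ∃ xs : List (datS S).J, xs.map ltr = l := by
  induction l with
  | nil => exact ⟨[], rfl⟩
  | cons y l ih =>
    obtain ⟨xs, hxs⟩ := ih (fun z hz => h z (List.mem_cons_of_mem _ hz))
    exact ⟨(⟨y, h y List.mem_cons_self⟩ : S) :: xs, by rw [List.map_cons, hxs]; rfl⟩

theorem LinesC_lift2 {Λ : Type} [DecidableEq Λ] {S : Finset (Λ × ℤ)} (L : List (List (Λ × ℤ)))
    (h : ∀ l ∈ L, ∀ y ∈ l, y ∈ S) :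
    ∃ xss : List (List (datS S).J), xss.map (List.map ltr) = L := by
  induction L with
  | nil => exact ⟨[], rfl⟩
  | cons l L ih =>
    obtain ⟨xss, hxss⟩ := ih (fun z hz => h z (List.mem_cons_of_mem _ hz))
    obtain ⟨xs, hxs⟩ := LinesC_lift l (h l List.mem_cons_self)
    exact ⟨xs :: xss, by rw [List.map_cons, hxs, hxss]⟩

theorem LinesC_forall {α β γ : Type} {f : α → γ} {g : β → γ} {l : List α} {l' : List β}
    (h : l'.map g = l.map f) : List.Forall₂ (fun a b => f a = g b) l l' := by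
  induction l generalizing l' with
  | nil =>
    rw [List.map_nil, List.map_eq_nil_iff] at h
    subst h
    exact List.Forall₂.nil
  | cons a l ih =>
    cases l' with
    | nil => simp at h
    | cons b l' =>
      rw [List.map_cons, List.map_cons, List.cons.injEq] at h
      exact List.Forall₂.cons h.1.symm (ih h.2)

/-- PROOF. The line has arrows: first case of `RectsOf`, r the rectangle, 2 t - a + b = par2 (a + b is
congruent to par2 mod 2), ρ ≅ base i = lc. No arrows: second case with the columns `colF i a b j` as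
lists of elements of S (all letters are in S by hS: the content of the 1 × 1 rectangle);
the exponents: `lett_ex`, ex = k - j + (b - a + e) / 2 - e / 2 = k - (a-1)/2 + ((b-1)/2 - j);
NoArr: `datS_arr`, all second components are 0; ld = 0. -/
theorem rectsF_of [DecidableEq ι] (i : ι) (x : GLRep F × ℕ × ℕ) (ha : 0 < x.2.1)
    (hb : 0 < x.2.2) (hx : x.1.Isom (base i)) (S : Finset ((ι × ℤ × ℤ) × ℤ))
    (hS : ∀ r ∈ rectsF base i x.2.1 x.2.2, ∀ y ∈ r.cont, y ∈ S) :
    RectsOf S (lc base) (ld base) x (rectsF base i x.2.1 x.2.2) := by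
  obtain ⟨ρ, a, b⟩ := x
  dsimp only at ha hb hx hS ⊢
  have hp : par2 a b = (a : ℤ) + b - 2 * (((a + b) / 2 : ℕ) : ℤ) := by
    unfold par2
    omega
  by_cases hw : arw base i
  · left
    have hr : rectsF base i a b = [⟨(i, par2 a b, 0), (par2 a b + (a : ℤ) - b) / 2, a, b⟩] := by
      unfold rectsF
      rw [if_pos hw]
    rw [hr] at hS ⊢
    refine ⟨_, rfl, ?_, rfl, rfl, ha, hb, ?_, fun y hy => hS _ (List.mem_singleton_self _) y hy⟩
    · unfold lc
      rw [if_pos hw]
      exact hx
    · unfold ld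
      rw [if_pos hw]
      dsimp only
      omega
  · right
    have hr : rectsF base i a b = (letF i a b).map fun x => ⟨x.1, x.2, 1, 1⟩ := by
      unfold rectsF
      rw [if_neg hw]
    have hmem : ∀ y ∈ letF i a b, y ∈ S := by
      intro y hy
      refine hS ⟨y.1, y.2, 1, 1⟩ ?_ y ?_
      · rw [hr]
        exact List.mem_map.2 ⟨y, hy, rfl⟩
      · unfold PC.Rect.cont
        refine Multiset.mem_map.2 ⟨((0 : Fin 1), (0 : Fin 1)), Finset.mem_univ_val _, ?_⟩
        simp
    obtain ⟨xss, hxss⟩ := LinesC_lift2 (S := S) ((List.range b).map fun j : ℕ => colF i a b j)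
      (fun l hl y hy => hmem y (List.mem_flatten.2 ⟨l, hl, hy⟩))
    have hfl : xss.flatten.map ltr = letF i a b := by
      unfold letF
      rw [← hxss, List.map_flatten]
    have h2 : ∀ y ∈ letF i a b, y.2 = 0 ∧ y.1.1 = i := by
      intro y hy
      unfold letF at hy
      obtain ⟨ys, hys, hy⟩ := List.mem_flatten.1 hy
      obtain ⟨j, -, rfl⟩ := List.mem_map.1 hys
      unfold colF at hy
      obtain ⟨k, -, rfl⟩ := List.mem_map.1 hy
      exact ⟨rfl, rfl⟩
    have h3 : ∀ y ∈ xss.flatten, (ltr y).2 = 0 ∧ (ltr y).1.1 = i := by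
      intro y hy
      refine h2 _ ?_
      rw [← hfl]
      exact List.mem_map.2 ⟨y, hy, rfl⟩
    refine ⟨xss, ?_, ?_, ?_, ?_⟩
    · refine (LinesC_forall hxss).imp fun j xs hj => ?_
      refine (LinesC_forall (f := fun k : ℕ => (((i, par2 a b, (k : ℤ) - (j : ℤ) +
        ((b : ℤ) - a + par2 a b) / 2), (0 : ℤ)) : (ι × ℤ × ℤ) × ℤ)) hj.symm).imp fun k y hk => ?_
      rw [← hk]
      refine (hx.tw _).trans ?_
      refine GLRep.Isom.symm ?_
      have h4 := lett_ex base (((i, par2 a b, (k : ℤ) - (j : ℤ) +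
        ((b : ℤ) - a + par2 a b) / 2), (0 : ℤ)) : (ι × ℤ × ℤ) × ℤ)
      have h5 : ex base (((i, par2 a b, (k : ℤ) - (j : ℤ) +
          ((b : ℤ) - a + par2 a b) / 2), (0 : ℤ)) : (ι × ℤ × ℤ) × ℤ) =
          (k : ℝ) - ((a : ℝ) - 1) / 2 + (((b : ℝ) - 1) / 2 - (j : ℝ)) := by
        unfold ex
        dsimp only
        rw [if_neg hw]
        have h6 : 2 * (((b : ℤ) - a + par2 a b) / 2) = (b : ℤ) - a + par2 a b := by omega
        have h7 : 2 * ((((b : ℤ) - a + par2 a b) / 2 : ℤ) : ℝ) = (b : ℝ) - a + (par2 a b : ℝ) := by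
          exact_mod_cast h6
        push_cast
        push_cast at h7
        linarith
      rw [h5] at h4
      exact h4
    · intro x hx y hy
      by_contra hc
      rw [Bool.not_eq_false, datS_arr] at hc
      have := (h3 x hx).1
      have := (h3 y hy).1
      omega
    · intro y hy
      obtain ⟨h4, h5⟩ := h3 y hy
      unfold ld
      rw [h4, h5, if_neg hw]
      simp
    · rw [hr, ← hfl, List.map_map]
      rfl


end

end Pool.Agent.Lib.MP_ca1492_al.Q
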