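import Mathlib
import Pool.Agent.Lib.MP_ca1492_al.Fn.Comb
import Pool.Agent.Lib.MP_ca1492_al.Fn.LinesD
import Pool.Agent.Lib.MP_ca1492_al.Supp

/-!
# MP_ca1492_al, module Fn/LinesE: counting the contents of the rectangles
-/

set_option autoImplicit false

namespace Pool.Agent.Lib.MP_ca1492_al.Q

open Pool.Agent.Lib.MP_ca1492_al.P
open Topology Matrix TensorProduct CategoryTheory CategoryTheory.Abelian ValuativeRel CA1492

noncomputable section

variable {F : Type} [Field F] [ValuativeRel F] [TopologicalSpace F]
  [IsNonarchimedeanLocalField F]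

variable {ι : Type} (base : ι → GLRep F)

theorem LinesE_par (a b : ℕ) : (par2 a b = 0 ∨ par2 a b = 1) ∧
    ∃ k : ℤ, (a : ℤ) + b = 2 * k + par2 a b := by
  unfold par2
  refine ⟨by omega, ((a + b) / 2 : ℕ), ?_⟩
  push_cast
  omega

/-- the exponent in the form of `Nab_int` -/
theorem LinesE_ex (a b : ℕ) (y c : ℤ) (hc : 2 * c = (b : ℤ) - a + par2 a b) :
    (y : ℝ) - (par2 a b : ℝ) / 2 = ((y - c + b - 1 : ℤ) : ℝ) - ((a : ℝ) + b - 2) / 2 := by
  have h : (2 : ℝ) * (c : ℝ) = (b : ℝ) - a + (par2 a b : ℝ) := by exact_mod_cast hc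
  push_cast
  linarith

theorem LinesE_ne (a b : ℕ) (y e : ℤ) (he : e = 0 ∨ e = 1) (hne : e ≠ par2 a b) :
    Nab a b ((y : ℝ) - (e : ℝ) / 2) = 0 := by
  apply Nab_nonint
  intro u hu
  apply hne
  have h1 : (2 : ℝ) * (y : ℝ) - e = 2 * u - (a + b - 2) := by linarith
  have h2 : 2 * y - e = 2 * u - ((a : ℤ) + b - 2) := by exact_mod_cast h1
  obtain ⟨h3, k, h4⟩ := LinesE_par a b
  omega

open Classical in
theorem LinesE_single (l : ι × ℤ × ℤ) (t : ℤ) :
    (⟨l, t, 1, 1⟩ : PC.Rect (ι × ℤ × ℤ)).cont = {(l, t)} := by
  unfold PC.Rect.cont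
  simp

theorem LinesE_sum [DecidableEq ι] (L : List ((ι × ℤ × ℤ) × ℤ)) (x : (ι × ℤ × ℤ) × ℤ) :
    (((L.map fun x => (⟨x.1, x.2, 1, 1⟩ : PC.Rect (ι × ℤ × ℤ))).map PC.Rect.cont).sum).count x =
      L.count x := by
  induction L with
  | nil => simp
  | cons y L ih =>
    rw [List.map_cons, List.map_cons, List.sum_cons, Multiset.count_add, ih, LinesE_single,
      Multiset.count_singleton, List.count_cons, add_comm]
    congr 1
    by_cases h : x = y
    · simp [h]
    · rw [if_neg h, if_neg]
      simpa using fun h' => h h'.symm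

theorem LinesE_countRange {α : Type} [BEq α] [LawfulBEq α] [DecidableEq α] (n : ℕ) (g : ℕ → α) (x : α) :
    ((((List.range n).map g).count x : ℕ) : ℤ) =
      ∑ k ∈ Finset.range n, if x = g k then (1 : ℤ) else 0 := by
  induction n with
  | zero => simp
  | succ n ih =>
    rw [List.range_succ, List.map_append, List.count_append, Finset.sum_range_succ]
    push_cast
    rw [ih, List.map_singleton, List.count_singleton]
    congr 1
    by_cases h : x = g n
    · simp [h]
    · rw [if_neg h, if_neg]
      · rfl
      · simpa using fun h' => h h'.symm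

theorem LinesE_countFlat {α : Type} [BEq α] (n : ℕ) (g : ℕ → List α) (x : α) :
    (((((List.range n).map g).flatten).count x : ℕ) : ℤ) =
      ∑ k ∈ Finset.range n, (((g k).count x : ℕ) : ℤ) := by
  induction n with
  | zero => simp
  | succ n ih =>
    rw [List.range_succ, List.map_append, List.flatten_append, List.count_append,
      Finset.sum_range_succ]
    push_cast
    rw [ih]
    simp

/-- The number of contents equal to a good letter.
PROOF. Arrows: `PC.Rect.count_cont'` and `Nab_int`, `Nab_nonint` (the letter ((i, e, 0), t): if e = par2 then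
ex = t - e / 2 = u - (a + b - 2) / 2 with u = t + (a + b - 2 - e) / 2, and the two formulas agree; if
e ≠ par2 the count is 0 (`count_cont_ne`) and `Nab_nonint`). No arrows: the count of
((i, e, j), 0) in the list of contents is the number of (k, j') with par2 = e and
k - j' + (b - a + par2) / 2 = j, i.e. k - (a-1)/2 + ((b-1)/2 - j') = ex; reflect j' ↦ b - 1 - j' to compare with
`Nab`. -/
theorem rectsF_count [DecidableEq ι] (i : ι) (a b : ℕ) (ha : 0 < a) (hb : 0 < b)
    (x : (ι × ℤ × ℤ) × ℤ) (hx : good base x) :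
    (((rectsF base i a b).map PC.Rect.cont).sum).count x =
      if x.1.1 = i then Nab a b (ex base x) else 0 := by
  obtain ⟨⟨i', e, j⟩, t⟩ := x
  obtain ⟨he, hg⟩ := hx
  simp only at he hg
  obtain ⟨hp, k, hk⟩ := LinesE_par a b
  by_cases hi : i' = i
  · subst hi
    rw [if_pos rfl]
    by_cases har : arw base i'
    · rw [if_pos har] at hg
      subst hg
      have h1 : rectsF base i' a b = [⟨(i', par2 a b, 0), (par2 a b + (a : ℤ) - b) / 2, a, b⟩] := by
        rw [rectsF, if_pos har]
      have h2 : ex base ((i', e, 0), t) = (t : ℝ) - (e : ℝ) / 2 := by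
        rw [ex, if_pos har]
      rw [h1, h2, List.map_singleton, List.sum_singleton]
      by_cases hep : e = par2 a b
      · subst hep
        have h3 := PC.Rect.count_cont'
          (⟨(i', par2 a b, 0), (par2 a b + (a : ℤ) - b) / 2, a, b⟩ : PC.Rect (ι × ℤ × ℤ)) t
        simp only at h3
        have h4 := LinesE_ex a b t (k - a + par2 a b) (by omega)
        have h5 := Nab_int a b ha hb (t - (k - a + par2 a b) + b - 1)
        rw [← h4] at h5
        have h6 : (((⟨(i', par2 a b, 0), (par2 a b + (a : ℤ) - b) / 2, a, b⟩ :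
            PC.Rect (ι × ℤ × ℤ)).cont.count ((i', par2 a b, 0), t) : ℕ) : ℤ) =
            (Nab a b ((t : ℝ) - (par2 a b : ℝ) / 2) : ℤ) := by
          rw [h3, h5]
          omega
        exact_mod_cast h6
      · rw [LinesE_ne a b t e he hep]
        apply PC.Rect.count_cont_ne
        intro h
        simp only [Prod.mk.injEq] at h
        exact hep h.2.1
    · rw [if_neg har] at hg
      subst hg
      have h1 : rectsF base i' a b = (letF i' a b).map fun x => ⟨x.1, x.2, 1, 1⟩ := by
        rw [rectsF, if_neg har]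
      have h2 : ex base ((i', e, j), 0) = (j : ℝ) - (e : ℝ) / 2 := by
        rw [ex, if_neg har]
        simp
      rw [h1, h2, LinesE_sum]
      by_cases hep : e = par2 a b
      · subst hep
        have h3 : (((letF i' a b).count ((i', par2 a b, j), 0) : ℕ) : ℤ) =
            (Nab a b ((j : ℝ) - (par2 a b : ℝ) / 2) : ℤ) := by
          have h4 := LinesE_ex a b j (k - a + par2 a b) (by omega)
          rw [h4, Nab_int a b ha hb, letF, LinesE_countFlat]
          have h5 : ∀ m : ℕ, (((colF i' a b m).count ((i', par2 a b, j), 0) : ℕ) : ℤ) =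
              ∑ k' ∈ Finset.range a,
                if j = ((k - a + par2 a b) + (k' : ℕ) - (m : ℕ) : ℤ) then (1 : ℤ) else 0 := by
            intro m
            rw [colF, LinesE_countRange]
            refine Finset.sum_congr rfl fun k' _ => ?_
            have h6 : (((i', par2 a b, j), (0 : ℤ)) =
                ((i', par2 a b, (k' : ℤ) - (m : ℤ) + ((b : ℤ) - a + par2 a b) / 2), (0 : ℤ))) ↔
                j = ((k - a + par2 a b) + (k' : ℕ) - (m : ℕ) : ℤ) := by
              simp only [Prod.mk.injEq, true_and, and_true]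
              omega
            by_cases h7 : j = ((k - a + par2 a b) + (k' : ℕ) - (m : ℕ) : ℤ)
            · rw [if_pos h7, if_pos (h6.2 h7)]
            · rw [if_neg h7, if_neg (fun h8 => h7 (h6.1 h8))]
          rw [Finset.sum_congr rfl fun m _ => h5 m, PC.Supp_sum_box]
          omega
        exact_mod_cast h3
      · rw [LinesE_ne a b j e he hep]
        rw [List.count_eq_zero, letF, List.mem_flatten]
        rintro ⟨l, hl, hx⟩
        rw [List.mem_map] at hl
        obtain ⟨m, _, rfl⟩ := hl
        rw [colF, List.mem_map] at hx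
        obtain ⟨k', _, hk'⟩ := hx
        simp only [Prod.mk.injEq] at hk'
        exact hep hk'.1.2.1.symm
  · rw [if_neg hi]
    by_cases har : arw base i
    · have h1 : rectsF base i a b = [⟨(i, par2 a b, 0), (par2 a b + (a : ℤ) - b) / 2, a, b⟩] := by
        rw [rectsF, if_pos har]
      rw [h1, List.map_singleton, List.sum_singleton]
      apply PC.Rect.count_cont_ne
      intro h
      simp only [Prod.mk.injEq] at h
      exact hi h.1
    · have h1 : rectsF base i a b = (letF i a b).map fun x => ⟨x.1, x.2, 1, 1⟩ := by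
        rw [rectsF, if_neg har]
      rw [h1, LinesE_sum, List.count_eq_zero, letF, List.mem_flatten]
      rintro ⟨l, hl, hx⟩
      rw [List.mem_map] at hl
      obtain ⟨m, _, rfl⟩ := hl
      rw [colF, List.mem_map] at hx
      obtain ⟨k', _, hk'⟩ := hx
      simp only [Prod.mk.injEq] at hk'
      exact hi hk'.1.1.symm

end

end Pool.Agent.Lib.MP_ca1492_al.Q
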