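import Mathlib
import Pool.Agent.Lib.MP_ca1492_al.Fn.Comb
import Pool.Agent.Lib.MP_ca1492_al.Fn.TwB
import Pool.Agent.Lib.MP_ca1492_al.P.GLRepB

/-!
# MP_ca1492_al, module Fn/MultSupp: the multiplicities determine the cuspidal support and conversely
-/

set_option autoImplicit false

namespace Pool.Agent.Lib.MP_ca1492_al.Q

open Pool.Agent.Lib.MP_ca1492_al.P
open Topology Matrix TensorProduct ValuativeRel

noncomputable section

variable {F : Type} [Field F] [ValuativeRel F] [TopologicalSpace F]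
  [IsNonarchimedeanLocalField F]

open Classical in
/-- PROOF: for x in ψ.L, x.1 is cuspidal with unitary central character, so by `tw_cusp_isom`
(x.1.tw s').Isom (ρ.tw s) iff s' = s and x.1.Isom ρ (← by `Isom.tw`). -/
theorem supp_tw (ψ : APar F) (ρ : GLRep F) (h1 : ρ.Cusp) (h2 : ρ.UnitCentral) (s : ℝ) :
    ψ.supp (ρ.tw s) =
      (ψ.L.map fun x => if x.1.Isom ρ then Nab x.2.1 x.2.2 s else 0).sum := by
  unfold APar.supp
  congr 1
  refine List.map_congr_left fun x hx => ?_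
  obtain ⟨hx1, hx2, -⟩ := ψ.cusp x hx
  by_cases h : x.1.Isom ρ
  · rw [if_pos h]
    unfold Nab
    congr 1
    refine Finset.filter_congr fun p _ => ?_
    constructor
    · intro h'
      exact (tw_cusp_isom hx1 hx2 h1 h2 h').1
    · intro h'
      rw [h']
      exact h.tw s
  · rw [if_neg h, Finset.card_eq_zero, Finset.filter_eq_empty_iff]
    intro p _ h'
    exact h (tw_cusp_isom hx1 hx2 h1 h2 h').2

open Classical in
/-- PROOF: countP as a sum. -/
theorem mult_sum (ψ : APar F) (ρ : GLRep F) (c : ℕ) :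
    ψ.mult ρ c =
      (ψ.L.map fun x => if x.1.Isom ρ then (if cg x.2.1 x.2.2 c then 1 else 0) else 0).sum := by
  unfold APar.mult
  generalize ψ.L = L
  induction L with
  | nil => rfl
  | cons x L ih =>
    rw [List.countP_cons, ih, List.map_cons, List.sum_cons, add_comm]
    congr 1
    by_cases h : x.1.Isom ρ
    · by_cases h' : cg x.2.1 x.2.2 c
      · rw [if_pos h, if_pos h', if_pos]
        exact decide_eq_true ⟨h, h'⟩
      · rw [if_pos h, if_neg h', if_neg]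
        intro hc
        exact h' (of_decide_eq_true hc).2
    · rw [if_neg h, if_neg]
      intro hc
      exact h (of_decide_eq_true hc).1

/-- PROOF: `Isom.trans`, `Isom.symm`. -/
theorem supp_congr (ψ : APar F) {τ τ' : GLRep F} (h : τ.Isom τ') : ψ.supp τ = ψ.supp τ' := by
  classical
  unfold APar.supp
  congr 1
  refine List.map_congr_left fun x _ => ?_
  congr 1
  refine Finset.filter_congr fun p _ => ⟨fun h' => h'.trans h, fun h' => h'.trans h.symm⟩

theorem mult_congr (ψ : APar F) {ρ ρ' : GLRep F} (h : ρ.Isom ρ') (c : ℕ) :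
    ψ.mult ρ c = ψ.mult ρ' c := by
  unfold APar.mult
  congr 1
  funext x
  rw [decide_eq_decide]
  exact ⟨fun h' => ⟨h'.1.trans h, h'.2⟩, fun h' => ⟨h'.1.trans h.symm, h'.2⟩⟩

/-- PROOF: a nonzero summand gives x ∈ ψ.L and an exponent. -/
theorem supp_ne (ψ : APar F) (τ : GLRep F) (h : ψ.supp τ ≠ 0) :
    ∃ x ∈ ψ.L, ∃ s : ℝ, (x.1.tw s).Isom τ := by
  classical
  by_contra hn
  push Not at hn
  apply h
  unfold APar.supp
  rw [List.sum_eq_zero]
  intro z hz
  obtain ⟨y, hy, rfl⟩ := List.mem_map.1 hz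
  rw [Finset.card_eq_zero, Finset.filter_eq_empty_iff]
  intro p _ hp
  exact hn y hy _ hp

theorem mult_ne (ψ : APar F) (ρ : GLRep F) (c : ℕ) (h : ψ.mult ρ c ≠ 0) :
    ∃ x ∈ ψ.L, x.1.Isom ρ := by
  classical
  by_contra hn
  push Not at hn
  apply h
  unfold APar.mult
  rw [List.countP_eq_zero]
  intro x hx hc
  exact hn x hx (of_decide_eq_true hc).1

/-- PROOF: `mult_sum`, `supp_tw`, `cg_eq` summed over the list. -/
theorem mult_of_supp (ψ : APar F) (ρ : GLRep F) (h1 : ρ.Cusp) (h2 : ρ.UnitCentral) (c : ℕ)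
    (hc : 0 < c) : (ψ.mult ρ c : ℤ) =
      (ψ.supp (ρ.tw (((c : ℝ) - 1) / 2)) : ℤ) - (ψ.supp (ρ.tw (((c : ℝ) + 1) / 2)) : ℤ) := by
  classical
  rw [mult_sum, supp_tw ψ ρ h1 h2, supp_tw ψ ρ h1 h2]
  have hL : ∀ x ∈ ψ.L, 0 < x.2.1 ∧ 0 < x.2.2 := fun x hx => (ψ.cusp x hx).2.2
  generalize ψ.L = L at hL
  induction L with
  | nil => simp
  | cons x L ih =>
    have ih' := ih (fun y hy => hL y (List.mem_cons_of_mem _ hy))
    have hx := hL x List.mem_cons_self
    have h3 := cg_eq x.2.1 x.2.2 c hx.1 hx.2 hc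
    simp only [List.map_cons, List.sum_cons, Nat.cast_add]
    rw [ih']
    by_cases h : x.1.Isom ρ
    · simp only [if_pos h]
      have h4 : (((if cg x.2.1 x.2.2 c then 1 else 0 : ℕ)) : ℤ) =
          (if cg x.2.1 x.2.2 c then (1 : ℤ) else 0) := by split_ifs <;> rfl
      rw [h4, h3]
      ring
    · simp only [if_neg h]
      simp

/-- PROOF: `mult_sum`, `supp_tw`, `Nab_sum` summed over the list. -/
theorem supp_of_mult (ψ : APar F) (ρ : GLRep F) (h1 : ρ.Cusp) (h2 : ρ.UnitCentral) (s : ℝ) (B : ℕ)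
    (hB : ∀ x ∈ ψ.L, x.2.1 + x.2.2 ≤ B) :
    ψ.supp (ρ.tw s) = ∑ c ∈ Finset.range B, ψ.mult ρ c * Nab c 1 s := by
  classical
  rw [supp_tw ψ ρ h1 h2]
  simp only [mult_sum]
  have hL : ∀ x ∈ ψ.L, 0 < x.2.1 ∧ 0 < x.2.2 := fun x hx => (ψ.cusp x hx).2.2
  generalize ψ.L = L at hL hB
  induction L with
  | nil => simp
  | cons x L ih =>
    have ih' := ih (fun y hy => hL y (List.mem_cons_of_mem _ hy))
      (fun y hy => hB y (List.mem_cons_of_mem _ hy))
    have hx := hL x List.mem_cons_self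
    have h3 := Nab_sum x.2.1 x.2.2 hx.1 hx.2 s B (hB x List.mem_cons_self)
    simp only [List.map_cons, List.sum_cons, add_mul, Finset.sum_add_distrib]
    rw [ih']
    congr 1
    by_cases h : x.1.Isom ρ
    · simp only [if_pos h]
      rw [h3]
      refine Finset.sum_congr rfl fun c _ => ?_
      split_ifs <;> simp
    · simp only [if_neg h]
      simp

/-- PROOF. (→) for τ with one of the two supports nonzero: `supp_ne` gives a cuspidal ρ = x.1 with unitary
central character and τ ≅ ρ.tw s; `supp_congr`, `supp_of_mult` with a common bound B. (←) for (ρ, c) with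
one of the two multiplicities nonzero: `mult_ne` gives x.1 ≅ ρ, x.1 cuspidal with unitary central character;
`mult_congr`; c = 0: both are 0 (`cg_zero`, `mult_sum`); c > 0: `mult_of_supp`. -/
theorem mult_iff_supp (ψ₁ ψ₂ : APar F) : (∀ (ρ : GLRep F) (c : ℕ), ψ₁.mult ρ c = ψ₂.mult ρ c) ↔
    ∀ τ : GLRep F, ψ₁.supp τ = ψ₂.supp τ := by
  constructor
  · intro h τ
    obtain ⟨B, hB⟩ : ∃ B : ℕ, ∀ x ∈ ψ₁.L ++ ψ₂.L, x.2.1 + x.2.2 ≤ B := by
      refine ⟨((ψ₁.L ++ ψ₂.L).map fun x => x.2.1 + x.2.2).sum, fun x hx => ?_⟩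
      exact List.single_le_sum (by simp) _ (List.mem_map.2 ⟨x, hx, rfl⟩)
    have key : ∀ x : GLRep F × ℕ × ℕ, x.1.Cusp → x.1.UnitCentral →
        (∃ s : ℝ, (x.1.tw s).Isom τ) → ψ₁.supp τ = ψ₂.supp τ := by
      rintro x h1 h2 ⟨s, hs⟩
      rw [← supp_congr ψ₁ hs, ← supp_congr ψ₂ hs,
        supp_of_mult ψ₁ x.1 h1 h2 s B (fun y hy => hB y (List.mem_append_left _ hy)),
        supp_of_mult ψ₂ x.1 h1 h2 s B (fun y hy => hB y (List.mem_append_right _ hy))]
      refine Finset.sum_congr rfl fun c _ => ?_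
      rw [h]
    by_cases h01 : ψ₁.supp τ = 0
    · by_cases h02 : ψ₂.supp τ = 0
      · rw [h01, h02]
      · obtain ⟨x, hx, hs⟩ := supp_ne ψ₂ τ h02
        exact key x (ψ₂.cusp x hx).1 (ψ₂.cusp x hx).2.1 hs
    · obtain ⟨x, hx, hs⟩ := supp_ne ψ₁ τ h01
      exact key x (ψ₁.cusp x hx).1 (ψ₁.cusp x hx).2.1 hs
  · intro h ρ c
    have key : ∀ x : GLRep F × ℕ × ℕ, x.1.Cusp → x.1.UnitCentral → x.1.Isom ρ →
        ψ₁.mult ρ c = ψ₂.mult ρ c := by
      intro x h1 h2 hx
      rw [← mult_congr ψ₁ hx, ← mult_congr ψ₂ hx]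
      rcases Nat.eq_zero_or_pos c with rfl | hc
      · classical
        rw [mult_sum, mult_sum]
        simp [cg_zero]
      · have e1 := mult_of_supp ψ₁ x.1 h1 h2 c hc
        have e2 := mult_of_supp ψ₂ x.1 h1 h2 c hc
        rw [h, h, ← e2] at e1
        exact_mod_cast e1
    by_cases h01 : ψ₁.mult ρ c = 0
    · by_cases h02 : ψ₂.mult ρ c = 0
      · rw [h01, h02]
      · obtain ⟨x, hx, hs⟩ := mult_ne ψ₂ ρ c h02
        exact key x (ψ₂.cusp x hx).1 (ψ₂.cusp x hx).2.1 hs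
    · obtain ⟨x, hx, hs⟩ := mult_ne ψ₁ ρ c h01
      exact key x (ψ₁.cusp x hx).1 (ψ₁.cusp x hx).2.1 hs

end

end Pool.Agent.Lib.MP_ca1492_al.Q
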