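import Mathlib
import Pool.Agent.Lib.MP_ca1492_al.Fn.LinesC
import Pool.Agent.Lib.MP_ca1492_al.Fn.LinesE
import Pool.Agent.Lib.MP_ca1492_al.Fn.MultSupp

/-!
# MP_ca1492_al, module Fn/FinalA: the rectangles of a parameter
-/

set_option autoImplicit false

namespace Pool.Agent.Lib.MP_ca1492_al.Q

open Pool.Agent.Lib.MP_ca1492_al.P
open Topology Matrix TensorProduct CategoryTheory CategoryTheory.Abelian ValuativeRel CA1492

noncomputable section

variable {F : Type} [Field F] [ValuativeRel F] [TopologicalSpace F]
  [IsNonarchimedeanLocalField F]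

section
variable {ι : Type} [DecidableEq ι] (base : ι → GLRep F)

/-- PROOF: induction on the list; choose i by `hx`, take `rectsF base i a b`. -/
theorem exists_rects (L : List (GLRep F × ℕ × ℕ)) (hx : ∀ x ∈ L, ∃ i, x.1.Isom (base i)) :
    ∃ is : List ι, List.Forall₂ (fun (x : GLRep F × ℕ × ℕ) (i : ι) => x.1.Isom (base i)) L is := by
  induction L with
  | nil => exact ⟨[], List.Forall₂.nil⟩
  | cons x L ih =>
    obtain ⟨i, hi⟩ := hx x List.mem_cons_self
    obtain ⟨is, his⟩ := ih (fun y hy => hx y (List.mem_cons_of_mem _ hy))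
    exact ⟨i :: is, List.Forall₂.cons hi his⟩

/-- the rectangles of a parameter with the given classes -/
def rssF (L : List (GLRep F × ℕ × ℕ)) (is : List ι) : List (List (PC.Rect (ι × ℤ × ℤ))) :=
  List.zipWith (fun (x : GLRep F × ℕ × ℕ) (i : ι) => rectsF base i x.2.1 x.2.2) L is

/-- PROOF: `rectsF_of`, induction on `Forall₂`. -/
theorem rssF_of (L : List (GLRep F × ℕ × ℕ)) (hL : ∀ x ∈ L, 0 < x.2.1 ∧ 0 < x.2.2) (is : List ι)
    (h : List.Forall₂ (fun (x : GLRep F × ℕ × ℕ) (i : ι) => x.1.Isom (base i)) L is)
    (S : Finset ((ι × ℤ × ℤ) × ℤ))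
    (hS : ∀ r ∈ (rssF base L is).flatten, ∀ y ∈ r.cont, y ∈ S) :
    List.Forall₂ (RectsOf S (lc base) (ld base)) L (rssF base L is) := by
  induction h with
  | nil => exact List.Forall₂.nil
  | @cons x i L is hxi h ih =>
    have hcons : rssF base (x :: L) (i :: is) = rectsF base i x.2.1 x.2.2 :: rssF base L is := rfl
    rw [hcons] at hS ⊢
    have hx := hL x List.mem_cons_self
    refine List.Forall₂.cons (rectsF_of base i x hx.1 hx.2 hxi S fun r hr y hy => ?_)
      (ih (fun y hy => hL y (List.mem_cons_of_mem _ hy)) fun r hr y hy => ?_)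
    · exact hS r (by rw [List.flatten_cons]; exact List.mem_append_left _ hr) y hy
    · exact hS r (by rw [List.flatten_cons]; exact List.mem_append_right _ hr) y hy

/-- PROOF: `rectsF_count` and `supp_tw` (for ρ = base i): both are the sum over the list of
`Nab a b (ex x)` for the members with class i (x.1.Isom (base i') and x.1.Isom (base i) iff i = i' by
hi). -/
theorem rssF_count (hb : ∀ i, (base i).Cusp ∧ (base i).UnitCentral)
    (hi : ∀ i j, (base i).Isom (base j) → i = j) (ψ : APar F) (is : List ι)
    (h : List.Forall₂ (fun (x : GLRep F × ℕ × ℕ) (i : ι) => x.1.Isom (base i)) ψ.L is)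
    (x : (ι × ℤ × ℤ) × ℤ) (hx : good base x) :
    (((rssF base ψ.L is).flatten.map PC.Rect.cont).sum).count x =
      ψ.supp ((base x.1.1).tw (ex base x)) := by
  classical
  rw [supp_tw ψ (base x.1.1) (hb _).1 (hb _).2 (ex base x)]
  have key : ∀ (L : List (GLRep F × ℕ × ℕ)) (_ : ∀ y ∈ L, 0 < y.2.1 ∧ 0 < y.2.2) (is : List ι)
      (_ : List.Forall₂ (fun (x : GLRep F × ℕ × ℕ) (i : ι) => x.1.Isom (base i)) L is),
      (((rssF base L is).flatten.map PC.Rect.cont).sum).count x =
        (L.map fun y => if y.1.Isom (base x.1.1) then Nab y.2.1 y.2.2 (ex base x) else 0).sum := by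
    intro L hL is h
    induction h with
    | nil => simp [rssF]
    | @cons y i L is hyi h ih =>
      have hcons : rssF base (y :: L) (i :: is) = rectsF base i y.2.1 y.2.2 :: rssF base L is := rfl
      have hy := hL y List.mem_cons_self
      rw [hcons, List.flatten_cons, List.map_append, List.sum_append, Multiset.count_add,
        ih (fun z hz => hL z (List.mem_cons_of_mem _ hz)), List.map_cons, List.sum_cons,
        rectsF_count base i y.2.1 y.2.2 hy.1 hy.2 x hx]
      congr 1
      by_cases hxi : x.1.1 = i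
      · rw [if_pos hxi, if_pos (by rw [hxi]; exact hyi)]
      · rw [if_neg hxi, if_neg (fun hc => hxi (hi _ _ (hyi.symm.trans hc)).symm)]
  exact key ψ.L (fun y hy => (ψ.cusp y hy).2.2) is h

/-- PROOF: `rectsF_good`. -/
theorem rssF_good (L : List (GLRep F × ℕ × ℕ)) (is : List ι) :
    ∀ r ∈ (rssF base L is).flatten, ∀ x ∈ r.cont, good base x := by
  induction L generalizing is with
  | nil => intro r hr; simp [rssF] at hr
  | cons y L ih =>
    cases is with
    | nil => intro r hr; simp [rssF] at hr
    | cons i is =>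
      have hcons : rssF base (y :: L) (i :: is) = rectsF base i y.2.1 y.2.2 :: rssF base L is := rfl
      intro r hr
      rw [hcons, List.flatten_cons, List.mem_append] at hr
      rcases hr with hr | hr
      · exact rectsF_good base i _ _ r hr
      · exact ih is r hr

end

end

end Pool.Agent.Lib.MP_ca1492_al.Q
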