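import Mathlib
import Pool.Agent.Lib.MP_ca1492_al.Fn.FinalA

/-!
# MP_ca1492_al, module Fn/FinalB: contents and cuspidal supports
-/

set_option autoImplicit false

namespace Pool.Agent.Lib.MP_ca1492_al.Q

open Pool.Agent.Lib.MP_ca1492_al.P
open Topology Matrix TensorProduct CategoryTheory CategoryTheory.Abelian ValuativeRel CA1492

noncomputable section

variable {F : Type} [Field F] [ValuativeRel F] [TopologicalSpace F]
  [IsNonarchimedeanLocalField F]

section
variable {ι : Type} [DecidableEq ι] (base : ι → GLRep F)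

omit [DecidableEq ι] in
/-- half integral exponents are exponents of good letters -/
theorem FinalB_good (i : ι) (m : ℤ) : ∃ x : (ι × ℤ × ℤ) × ℤ, good base x ∧ x.1.1 = i ∧
    ex base x = (m : ℝ) / 2 := by
  classical
  have h2 : m % 2 = 0 ∨ m % 2 = 1 := Int.emod_two_eq_zero_or_one m
  have ht : 2 * ((m + m % 2) / 2) = m + m % 2 := by omega
  have ht' : (2 : ℝ) * (((m + m % 2) / 2 : ℤ) : ℝ) = (m : ℝ) + ((m % 2 : ℤ) : ℝ) := by
    exact_mod_cast ht
  by_cases ha : arw base i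
  · refine ⟨((i, m % 2, 0), (m + m % 2) / 2), ⟨h2, ?_⟩, rfl, ?_⟩
    · rw [if_pos ha]
    · unfold ex
      rw [if_pos ha]
      dsimp only
      linarith
  · refine ⟨((i, m % 2, (m + m % 2) / 2), 0), ⟨h2, ?_⟩, rfl, ?_⟩
    · rw [if_neg ha]
    · unfold ex
      rw [if_neg ha]
      dsimp only
      rw [Int.cast_zero]
      linarith

omit [DecidableEq ι] in
theorem FinalB_supp (ψ : APar F) (is : List ι)
    (h : List.Forall₂ (fun (x : GLRep F × ℕ × ℕ) (i : ι) => x.1.Isom (base i)) ψ.L is)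
    (τ : GLRep F) (hτ : ψ.supp τ ≠ 0) :
    ∃ x : (ι × ℤ × ℤ) × ℤ, good base x ∧ ((base x.1.1).tw (ex base x)).Isom τ := by
  classical
  have h0 : ∃ y ∈ ψ.L, ∃ m : ℤ, (y.1.tw ((m : ℝ) / 2)).Isom τ := by
    by_contra hn
    push_neg at hn
    apply hτ
    unfold APar.supp
    rw [List.sum_eq_zero]
    intro z hz
    obtain ⟨y, hy, rfl⟩ := List.mem_map.1 hz
    rw [Finset.card_eq_zero, Finset.filter_eq_empty_iff]
    intro p _ hp
    refine hn y hy (2 * (p.1 : ℤ) - ((y.2.1 : ℤ) - 1) + (2 * (p.2 : ℤ) - ((y.2.2 : ℤ) - 1))) ?_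
    convert hp using 2
    push_cast
    ring
  obtain ⟨y, hy, m, hm⟩ := h0
  have h1 : ∃ i, y.1.Isom (base i) := by
    clear hm hτ
    generalize ψ.L = L at h hy
    induction h with
    | nil => simp at hy
    | @cons z i L is hz _ ih =>
      rcases List.mem_cons.1 hy with rfl | hy
      · exact ⟨i, hz⟩
      · exact ih hy
  obtain ⟨i, hi⟩ := h1
  obtain ⟨x, hx, hxi, hex⟩ := FinalB_good base i m
  refine ⟨x, hx, ?_⟩
  rw [hxi, hex]
  exact (hi.symm.tw _).trans hm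

theorem FinalB_mem (l : List (PC.Rect (ι × ℤ × ℤ))) (x : (ι × ℤ × ℤ) × ℤ) :
    x ∈ (l.map PC.Rect.cont).sum ↔ ∃ r ∈ l, x ∈ r.cont := by
  induction l with
  | nil => simp
  | cons a l ih => simp [ih]

/-- Contents and cuspidal supports.
PROOF. (→) τ with ψ₁.supp τ ≠ 0 or ψ₂.supp τ ≠ 0: some y ∈ ψ.L and a box exponent s with y.1.tw s ≅ τ
(unfold supp), 2 s ∈ ℤ, y.1 ≅ base i; there is a good letter x with x.1.1 = i, ex x = s (e the parity of
2 s); `supp_congr`, `rssF_count`. (←) counts of all letters: good ones by `rssF_count`, the others do not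
occur (`rssF_good`). -/
theorem cont_iff_supp (hb : ∀ i, (base i).Cusp ∧ (base i).UnitCentral)
    (hi : ∀ i j, (base i).Isom (base j) → i = j) (ψ₁ ψ₂ : APar F) (is₁ is₂ : List ι)
    (h₁ : List.Forall₂ (fun (x : GLRep F × ℕ × ℕ) (i : ι) => x.1.Isom (base i)) ψ₁.L is₁)
    (h₂ : List.Forall₂ (fun (x : GLRep F × ℕ × ℕ) (i : ι) => x.1.Isom (base i)) ψ₂.L is₂) :
    ((rssF base ψ₁.L is₁).flatten.map PC.Rect.cont).sum =
      ((rssF base ψ₂.L is₂).flatten.map PC.Rect.cont).sum ↔ ∀ τ, ψ₁.supp τ = ψ₂.supp τ := by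
  constructor
  · intro h τ
    have key : ∀ x : (ι × ℤ × ℤ) × ℤ, good base x → ((base x.1.1).tw (ex base x)).Isom τ →
        ψ₁.supp τ = ψ₂.supp τ := by
      intro x hx hxτ
      rw [← supp_congr ψ₁ hxτ, ← supp_congr ψ₂ hxτ, ← rssF_count base hb hi ψ₁ is₁ h₁ x hx,
        ← rssF_count base hb hi ψ₂ is₂ h₂ x hx, h]
    by_cases h01 : ψ₁.supp τ = 0
    · by_cases h02 : ψ₂.supp τ = 0
      · rw [h01, h02]
      · obtain ⟨x, hx, hxτ⟩ := FinalB_supp base ψ₂ is₂ h₂ τ h02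
        exact key x hx hxτ
    · obtain ⟨x, hx, hxτ⟩ := FinalB_supp base ψ₁ is₁ h₁ τ h01
      exact key x hx hxτ
  · intro h
    refine Multiset.ext.2 fun x => ?_
    by_cases hx : good base x
    · rw [rssF_count base hb hi ψ₁ is₁ h₁ x hx, rssF_count base hb hi ψ₂ is₂ h₂ x hx, h]
    · rw [Multiset.count_eq_zero.2, Multiset.count_eq_zero.2]
      · rw [FinalB_mem]
        rintro ⟨r, hr, hxr⟩
        exact hx (rssF_good base _ _ r hr x hxr)
      · rw [FinalB_mem]
        rintro ⟨r, hr, hxr⟩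
        exact hx (rssF_good base _ _ r hr x hxr)

end

end

end Pool.Agent.Lib.MP_ca1492_al.Q
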