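import Mathlib
import Pool.Agent.Lib.MP_ca1492_al.Fn.LinesA

/-!
# MP_ca1492_al, module Fn/LinesB: linked and unlinked letters
-/

set_option autoImplicit false

namespace Pool.Agent.Lib.MP_ca1492_al.Q

open Pool.Agent.Lib.MP_ca1492_al.P
open Topology Matrix TensorProduct CategoryTheory CategoryTheory.Abelian ValuativeRel CA1492

noncomputable section

variable {F : Type} [Field F] [ValuativeRel F] [TopologicalSpace F]
  [IsNonarchimedeanLocalField F]

variable {ι : Type} (base : ι → GLRep F)

/-- Irreducibility is invariant under isomorphism. PROOF: transport of stable subspaces. -/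
theorem irred_isom {A B : GLRep F} (h : A.Isom B) (hA : A.Irred) : B.Irred := by
  obtain ⟨e, f, hf⟩ := h
  obtain ⟨⟨v, hv⟩, hU⟩ := hA
  refine ⟨⟨f v, fun h0 => hv (f.injective (h0.trans f.map_zero.symm))⟩, fun U hs => ?_⟩
  rcases hU (U.comap f.toLinearMap) (fun g x hx => by
    change f (A.π g x) ∈ U
    rw [hf]
    exact hs _ _ hx) with h | h
  · left
    rw [eq_bot_iff]
    intro x hx
    have h1 : f.symm x ∈ U.comap f.toLinearMap := by
      change f (f.symm x) ∈ U
      rwa [f.apply_symm_apply]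
    rw [h, Submodule.mem_bot] at h1
    rw [Submodule.mem_bot, ← f.apply_symm_apply x, h1, map_zero]
  · right
    rw [eq_top_iff]
    intro x _
    have h1 : f.symm x ∈ U.comap f.toLinearMap := by
      rw [h]
      exact Submodule.mem_top
    have h2 : f (f.symm x) ∈ U := h1
    rwa [f.apply_symm_apply] at h2

theorem LinesB_tw {X Y : GLRep F} {s : ℝ} (h : (Y.tw s).Isom X) : Y.Irred ↔ X.Irred := by
  constructor
  · intro hY
    exact irred_isom h (hY.tw s)
  · intro hX
    have h1 := ((GLRep.tw_tw Y s (-s)).symm.trans (h.tw (-s))).symm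
    rw [add_neg_cancel] at h1
    exact irred_isom (h1.trans (GLRep.tw_zero Y)) (hX.tw (-s))

/-- The representations base.tw s × base.tw (s + 1).
PROOF: `mul_tw`: (base × base.tw 1).tw s ≅ base.tw s × (base.tw 1).tw s, `tw_tw`, `Isom.mul`,
`Irred.tw`, `irred_isom`; the converse with the twist by -s (`tw_tw`, `tw_zero`). -/
theorem arw_tw (i : ι) (s : ℝ) : arw base i ↔
    ¬ ((((base i).tw s).mul ((base i).tw (s + 1))).Irred ∧
      (((base i).tw (s + 1)).mul ((base i).tw s)).Irred) := by
  have h0 : (((base i).tw 1).tw s).Isom ((base i).tw (s + 1)) := by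
    have := GLRep.tw_tw (base i) 1 s
    rwa [add_comm] at this
  have h1 := (GLRep.mul_tw (base i) ((base i).tw 1) s).trans ((GLRep.Isom.refl _).mul h0)
  have h2 := (GLRep.mul_tw ((base i).tw 1) (base i) s).trans (h0.mul (GLRep.Isom.refl _))
  unfold arw
  rw [LinesB_tw h1, LinesB_tw h2]

theorem LinesB_iff {A A' B B' : GLRep F} (h : A.Isom A') (h' : B.Isom B') :
    ((A.mul B).Irred ∧ (B.mul A).Irred) ↔ ((A'.mul B').Irred ∧ (B'.mul A').Irred) :=
  ⟨fun hh => ⟨irred_isom (h.mul h') hh.1, irred_isom (h'.mul h) hh.2⟩,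
    fun hh => ⟨irred_isom (h.symm.mul h'.symm) hh.1, irred_isom (h'.symm.mul h.symm) hh.2⟩⟩

/-- (H3a) neighbours are linked.
PROOF: x and (x.1, x.2 + 1) are both good, so the line has arrows (otherwise x.2 = 0 and
x.2 + 1 = 0); `lett_ex`, ex (x.1, x.2 + 1) = ex x + 1, `arw_tw`, `Isom.mul`, `irred_isom`. -/
theorem nb_arw {x : (ι × ℤ × ℤ) × ℤ} (hx : good base x) (hy : good base (x.1, x.2 + 1)) :
    ¬ (((lett (lc base) (ld base) x).mul (lett (lc base) (ld base) (x.1, x.2 + 1))).Irred ∧
      ((lett (lc base) (ld base) (x.1, x.2 + 1)).mul (lett (lc base) (ld base) x)).Irred) := by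
  have ha : arw base x.1.1 := by
    by_contra ha
    have h1 := hx.2
    have h2 := hy.2
    rw [if_neg ha] at h1
    rw [if_neg ha] at h2
    dsimp only at h2
    omega
  have he : ex base (x.1, x.2 + 1) = ex base x + 1 := by
    unfold ex
    rw [if_pos ha, if_pos ha]
    push_cast
    ring
  rw [LinesB_iff (lett_ex base x) (lett_ex base (x.1, x.2 + 1)), he]
  exact (arw_tw base x.1.1 (ex base x)).1 ha

/-- (H3b) other pairs with y ≅ x ν are not linked.
PROOF: `lett_ex`, `tw_tw`, `tw_cusp_isom`: x.1.1 = y.1.1 and ex y = ex x + 1. If the line has arrows then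
y = (x.1, x.2 + 1) (`good_ex` for y and (x.1, x.2 + 1)), excluded. So it has no arrows:
`arw_tw` for s = ex x, `Isom.mul`, `irred_isom`. -/
theorem no_nb (hb : ∀ i, (base i).Cusp ∧ (base i).UnitCentral)
    (hi : ∀ i j, (base i).Isom (base j) → i = j) {x y : (ι × ℤ × ℤ) × ℤ} (hx : good base x)
    (hy : good base y) (hn : y ≠ (x.1, x.2 + 1))
    (h : (lett (lc base) (ld base) y).Isom ((lett (lc base) (ld base) x).tw 1)) :
    ((lett (lc base) (ld base) x).mul (lett (lc base) (ld base) y)).Irred ∧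
      ((lett (lc base) (ld base) y).mul (lett (lc base) (ld base) x)).Irred := by
  have h1 : ((base y.1.1).tw (ex base y)).Isom ((base x.1.1).tw (ex base x + 1)) :=
    ((lett_ex base y).symm.trans h).trans (((lett_ex base x).tw 1).trans (GLRep.tw_tw _ _ _))
  obtain ⟨h2, h3⟩ := tw_cusp_isom (hb _).1 (hb _).2 (hb _).1 (hb _).2 h1
  have h4 := hi _ _ h3
  rw [LinesB_iff (lett_ex base x) (lett_ex base y), h4, h2]
  by_contra hc
  have ha : arw base x.1.1 := (arw_tw base x.1.1 (ex base x)).2 hc
  apply hn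
  have hx2 := hx.2
  rw [if_pos ha] at hx2
  have hg : good base (x.1, x.2 + 1) := ⟨hx.1, by
    rw [if_pos ha]
    exact hx2⟩
  refine good_ex base hy hg h4 ?_
  rw [h2]
  unfold ex
  rw [if_pos ha, if_pos ha]
  push_cast
  ring


end

end Pool.Agent.Lib.MP_ca1492_al.Q
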