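import Mathlib
import Pool.Agent.Lib.MP_ca1492_al.Fn.Asm2
import Pool.Agent.Lib.MP_ca1492_al.Fn.ExLink
import Pool.Agent.Lib.MP_ca1492_al.Fn.FinalB
import Pool.Agent.Lib.MP_ca1492_al.Fn.LinesB

/-!
# MP_ca1492_al, module Fn/Final: Q1 from the existence of the link and the finiteness of Ext
-/

set_option autoImplicit false

namespace Pool.Agent.Lib.MP_ca1492_al.Q

open Pool.Agent.Lib.MP_ca1492_al.P
open Topology Matrix TensorProduct CategoryTheory CategoryTheory.Abelian ValuativeRel CA1492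

noncomputable section

variable {F : Type} [Field F] [ValuativeRel F] [TopologicalSpace F]
  [IsNonarchimedeanLocalField F]

section
variable {ι : Type} [DecidableEq ι] (base : ι → GLRep F)

/-- PROOF: `lc_cusp`, `lett_inj`, `nb_arw`, `no_nb`. -/
theorem letters_lc (hb : ∀ i, (base i).Cusp ∧ (base i).UnitCentral)
    (hi : ∀ i j, (base i).Isom (base j) → i = j) (S : Finset ((ι × ℤ × ℤ) × ℤ))
    (hS : ∀ x ∈ S, good base x) : Letters S (lc base) (ld base) :=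
  ⟨lc_cusp base hb, fun x hx y hy h => lett_inj base hb hi (hS x hx) (hS y hy) h,
    fun x hx hy => nb_arw base (hS x hx) (hS _ hy),
    fun x hx y hy hn h => no_nb base hb hi (hS x hx) (hS y hy) hn h⟩

end

/-- Q1 from the existence of the link and the finiteness of Ext.
PROOF. `exists_base` for ψ₁.L ++ ψ₂.L; `exists_rects` for both; S = the finset of the contents of all
rectangles; `letters_lc`, hlink gives K; `Link.main2` with `rssF_of`; `cont_iff_supp`,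
`mult_iff_supp`. -/
theorem q1_of_link
    (hlink : ∀ (Λ : Type) (_ : DecidableEq Λ) (S : Finset (Λ × ℤ)) (c : Λ → GLRep F) (d : Λ → ℤ),
      Letters S c d → Nonempty (Link F S c d))
    (hfin : ∀ (Λ : Type) (_ : DecidableEq Λ) (S : Finset (Λ × ℤ)) (n : ℕ) (lam : ℂˣ)
      (A B : FObj (datS S) n lam), PosNe lam →
      ExtT.FinExt (ModuleCat.of (R (datS S) n) A.V) (ModuleCat.of (R (datS S) n) B.V) (n + 1)) :
    Q1 F := by
  intro n V₁ V₂ _ _ _ _ π₁ π₂ h₁ h₂ _ _ ψ₁ ψ₂ ha₁ ha₂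
  obtain ⟨ι, base, hb, hi, hL⟩ := exists_base (ψ₁.L ++ ψ₂.L) (fun x hx => by
    rcases List.mem_append.1 hx with hx | hx
    · exact ⟨(ψ₁.cusp x hx).1, (ψ₁.cusp x hx).2.1⟩
    · exact ⟨(ψ₂.cusp x hx).1, (ψ₂.cusp x hx).2.1⟩)
  classical
  obtain ⟨is₁, hs₁⟩ := exists_rects base ψ₁.L (fun x hx => hL x (List.mem_append_left _ hx))
  obtain ⟨is₂, hs₂⟩ := exists_rects base ψ₂.L (fun x hx => hL x (List.mem_append_right _ hx))
  obtain ⟨S, hS⟩ : ∃ S : Finset ((ι × ℤ × ℤ) × ℤ), ∀ x, x ∈ S ↔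
      ∃ r ∈ (rssF base ψ₁.L is₁).flatten ++ (rssF base ψ₂.L is₂).flatten, x ∈ r.cont := by
    refine ⟨((((rssF base ψ₁.L is₁).flatten ++ (rssF base ψ₂.L is₂).flatten).map
      PC.Rect.cont).sum).toFinset, fun x => ?_⟩
    rw [Multiset.mem_toFinset]
    generalize (rssF base ψ₁.L is₁).flatten ++ (rssF base ψ₂.L is₂).flatten = l
    induction l with
    | nil => simp
    | cons a l ih => simp [ih]
  have hS₁ : ∀ r ∈ (rssF base ψ₁.L is₁).flatten, ∀ y ∈ r.cont, y ∈ S := fun r hr y hy =>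
    (hS y).2 ⟨r, List.mem_append_left _ hr, hy⟩
  have hS₂ : ∀ r ∈ (rssF base ψ₂.L is₂).flatten, ∀ y ∈ r.cont, y ∈ S := fun r hr y hy =>
    (hS y).2 ⟨r, List.mem_append_right _ hr, hy⟩
  have hg : ∀ x ∈ S, good base x := by
    intro x hx
    obtain ⟨r, hr, hx⟩ := (hS x).1 hx
    rcases List.mem_append.1 hr with hr | hr
    · exact rssF_good base _ _ r hr x hx
    · exact rssF_good base _ _ r hr x hx
  obtain ⟨K⟩ := hlink _ inferInstance S (lc base) (ld base) (letters_lc base hb hi S hg)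
  have hm := K.main2 n V₁ V₂ π₁ π₂ h₁ h₂ ψ₁ ψ₂ ha₁ ha₂ _ _
    (rssF_of base ψ₁.L (fun x hx => (ψ₁.cusp x hx).2.2) is₁ hs₁ S hS₁)
    (rssF_of base ψ₂.L (fun x hx => (ψ₂.cusp x hx).2.2) is₂ hs₂ S hS₂)
    (fun n lam A B hp => hfin _ inferInstance S n lam A B hp)
  have hc := cont_iff_supp base hb hi ψ₁ ψ₂ is₁ is₂ hs₁ hs₂
  have hms := mult_iff_supp ψ₁ ψ₂
  exact ⟨hm.trans (hc.trans hms.symm), hms⟩


end

end Pool.Agent.Lib.MP_ca1492_al.Q
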