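import Mathlib
import Pool.Agent.Lib.MP_ca1492_al.Fn.ExLink
import Pool.Agent.Lib.MP_ca1492_al.Fn.TwC
import Pool.Agent.Lib.MP_ca1492_al.L5.Main
import Pool.Agent.Lib.MP_ca1492_al.S5.SysD

/-!
# MP_ca1492_al, module Fn/LinkOf: the link from the rank one theorems and the theory of two strands

`FarIrr`, `SelfIrr`: irreducibility of the products of two cuspidal representations; `PairT`: the functionals for
two strands (Cmp/Pair2).
-/

set_option autoImplicit false

namespace Pool.Agent.Lib.MP_ca1492_al.Q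

open Pool.Agent.Lib.MP_ca1492_al.P
open Topology Matrix TensorProduct CategoryTheory CategoryTheory.Abelian ValuativeRel CA1492

noncomputable section

variable (F : Type) [Field F] [ValuativeRel F] [TopologicalSpace F]
  [IsNonarchimedeanLocalField F]

/-- irreducibility of the products of cuspidal representations which are not neighbours -/
def FarIrr : Prop := ∀ A B : GLRep F, A.Cusp → B.Cusp → ¬ A.Isom B → ¬ A.Isom (B.tw 1) →
  ¬ B.Isom (A.tw 1) → (A.mul B).Irred ∧ (B.mul A).Irred

/-- irreducibility of the square of a cuspidal representation -/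
def SelfIrr : Prop := ∀ A : GLRep F, A.Cusp → (A.mul A).Irred

/-- the theory of two strands -/
def PairT : Prop := ∀ (D : Dat) (RJ : D.J → GLRep F), (∀ j, (RJ j).Cusp) →
  (∀ i j, i ≠ j → ¬ (RJ i).Isom (RJ j)) → (∀ i, ((RJ i).mul (RJ i)).Irred) →
  (∀ i j, i ≠ j → D.arr i j = false → D.arr j i = false →
    ((RJ i).mul (RJ j)).Irred ∧ ((RJ j).mul (RJ i)).Irred) →
  (∀ i j, D.arr i j = true → ¬ (((RJ i).mul (RJ j)).Irred ∧ ((RJ j).mul (RJ i)).Irred)) →
  ∃ e : D.J → D.J → PowerSeries ℂ, TwoD D RJ e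

theorem LinkOf_arr_false {Λ : Type} [DecidableEq Λ] {S : Finset (Λ × ℤ)} {x y : (datS S).J}
    (h : (datS S).arr x y = false) : ltr y ≠ ((ltr x).1, (ltr x).2 + 1) := by
  intro h1
  have h2 : (datS S).arr x y = true := by
    rw [datS_arr, h1]
    exact ⟨rfl, rfl⟩
  rw [h] at h2
  exact Bool.false_ne_true h2

theorem link_of (hfar : FarIrr F) (hself : SelfIrr F) (hpair : PairT F) (Λ : Type)
    (_ : DecidableEq Λ) (S : Finset (Λ × ℤ)) (c : Λ → GLRep F) (d : Λ → ℤ)
    (h : Letters S c d) : Nonempty (Link F S c d) := by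
  have hc : ∀ j : (datS S).J, (lett c d (ltr j)).Cusp := fun j => Q.Cusp.tw (h.cusp _) _
  have hmem : ∀ j : (datS S).J, ltr j ∈ S := fun j => Subtype.prop (p := fun y => y ∈ S) j
  have hinj : ∀ i j : (datS S).J, i ≠ j →
      ¬ (lett c d (ltr i)).Isom (lett c d (ltr j)) := by
    intro i j hij hI
    exact hij (ltr_injective (h.inj _ (hmem i) _ (hmem j) hI))
  obtain ⟨e, he⟩ := hpair (datS S) (fun x : (datS S).J => lett c d (ltr x)) hc hinj
    (fun i => hself _ (hc i)) (by
      intro i j hij h1 h2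
      by_cases h3 : (lett c d (ltr j)).Isom ((lett c d (ltr i)).tw 1)
      · exact h.free _ (hmem i) _ (hmem j) (LinkOf_arr_false h1) h3
      · by_cases h4 : (lett c d (ltr i)).Isom ((lett c d (ltr j)).tw 1)
        · exact (h.free _ (hmem j) _ (hmem i) (LinkOf_arr_false h2) h4).symm
        · exact hfar _ _ (hc i) (hc j) (hinj i j hij) h4 h3) (by
      intro i j hij
      rw [datS_arr] at hij
      have h1 : ltr j = ((ltr i).1, (ltr i).2 + 1) := Prod.ext hij.1 hij.2
      have h2 := h.nb _ (hmem i) (h1 ▸ hmem j)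
      rw [← h1] at h2
      exact h2)
  exact ⟨L.linkOfSys S c d (L.sysD he)⟩

end

end Pool.Agent.Lib.MP_ca1492_al.Q
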