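import Mathlib
import Pool.Agent.Lib.MP_ca1492_al.Cmp.Pair2
import Pool.Agent.Lib.MP_ca1492_al.Cmp.RelN
import Pool.Agent.Lib.MP_ca1492_al.Cmp.SelfN
import Pool.Agent.Lib.MP_ca1492_al.Fn.LinkOf

/-!
# MP_ca1492_al, module Fn/LinkEx: the link exists
-/

set_option autoImplicit false

namespace Pool.Agent.Lib.MP_ca1492_al.Q

open Pool.Agent.Lib.MP_ca1492_al.P
open Topology Matrix TensorProduct CategoryTheory CategoryTheory.Abelian ValuativeRel CA1492

noncomputable section

variable (F : Type) [Field F] [ValuativeRel F] [TopologicalSpace F]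
  [IsNonarchimedeanLocalField F]

theorem hlink (Λ : Type) (hΛ : DecidableEq Λ) (S : Finset (Λ × ℤ)) (c : Λ → GLRep F) (d : Λ → ℤ)
    (h : Letters S c d) : Nonempty (Link F S c d) :=
  link_of F (fun A B hA hB h0 h1 h2 => far_irr A B hA hB h0 h1 h2) (fun A hA => self_mul A hA)
    (fun D RJ h1 h2 h3 h4 h5 => pair2T D RJ h1 h2 h3 h4 h5) Λ hΛ S c d h

end

end Pool.Agent.Lib.MP_ca1492_al.Q
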