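import Mathlib
import Pool.Agent.Lib.MP_ca1492_al.D8.FinS
import Pool.Agent.Lib.MP_ca1492_al.Fn.Final
import Pool.Agent.Lib.MP_ca1492_al.P.BridgeU

/-!
# MP_ca1492_al, module Fn/Main: the statement of the hand-in from the existence of the link
-/

set_option autoImplicit false

namespace Pool.Agent.Lib.MP_ca1492_al.Q

open Pool.Agent.Lib.MP_ca1492_al.P
open Topology Matrix TensorProduct CategoryTheory CategoryTheory.Abelian ValuativeRel CA1492

noncomputable section

variable {F : Type} [Field F] [ValuativeRel F] [TopologicalSpace F]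
  [IsNonarchimedeanLocalField F]

theorem main_of_link
    (hlink : ∀ (Λ : Type) (_ : DecidableEq Λ) (S : Finset (Λ × ℤ)) (c : Λ → GLRep F) (d : Λ → ℤ),
      Letters S c d → Nonempty (Link F S c d)) : U.Q1 F :=
  U.of_Q (q1_of_link hlink fun _ _ _ _ lam A B hp => CA1492.D8.fin_FObj lam hp A B)

end

end Pool.Agent.Lib.MP_ca1492_al.Q
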